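import Pool.Agent.H12.EV.Asym
import Pool.Agent.H12.EV.Assemble

/-!
Trajectories which are stopped when they fall below `n ^ β`: the counts in short intervals.
-/

namespace Pool.Agent.H12.EW

open Filter Finset Pool.Agent.H12.EU Pool.Agent.H83.EX Pool.Agent.H12.EV

lemma lim0 {θ : ℝ} {κ : ℕ → ℝ}
    (hc : ∀ r : ℕ, r < 6 → Tendsto (fun L : ℝ => F r L 0 * L ^ θ) atTop (nhds (κ r)))
    {η : ℝ} (hη : 0 < η) :
    ∃ L0 : ℝ, 1 ≤ L0 ∧ ∀ L : ℝ, L0 ≤ L → ∀ r : ℕ, r < 6 →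
      (κ r - η) * L ^ (-θ) ≤ F r L 0 ∧ F r L 0 ≤ (κ r + η) * L ^ (-θ) := by
  have h1 : ∀ᶠ L : ℝ in atTop, ∀ r ∈ range 6,
      κ r - η < F r L 0 * L ^ θ ∧ F r L 0 * L ^ θ < κ r + η := by
    rw [Filter.eventually_all_finset]
    intro r hr
    have h2 := hc r (mem_range.mp hr)
    exact (h2.eventually (lt_mem_nhds (by linarith))).and
      (h2.eventually (gt_mem_nhds (by linarith)))
  obtain ⟨L1, hL1⟩ := Filter.eventually_atTop.mp h1
  refine ⟨max L1 1, le_max_right _ _, ?_⟩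
  intro L hL r hr
  have hL0 : 0 < L := by linarith [(le_max_right L1 1).trans hL]
  obtain ⟨a1, a2⟩ := hL1 L ((le_max_left _ _).trans hL) r (mem_range.mpr hr)
  have hp : 0 < L ^ (-θ) := Real.rpow_pos_of_pos hL0 _
  have e : F r L 0 * L ^ θ * L ^ (-θ) = F r L 0 := by
    rw [mul_assoc, ← Real.rpow_add hL0]
    simp
  constructor
  · rw [← e]
    exact mul_le_mul_of_nonneg_right a1.le hp.le
  · rw [← e]
    exact mul_le_mul_of_nonneg_right a2.le hp.le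

lemma sum_up0 {θ : ℝ} {κ : ℕ → ℝ}
    (hc : ∀ r : ℕ, r < 6 → Tendsto (fun L : ℝ => F r L 0 * L ^ θ) atTop (nhds (κ r)))
    {η : ℝ} (hη : 0 < η) :
    ∃ L0 : ℝ, 1 ≤ L0 ∧ ∀ L R : ℝ, L0 ≤ L → 0 ≤ R →
      ∑ r ∈ range 6, F r L R ≤ 6 * ((mean κ + η) * L ^ (-θ)) := by
  obtain ⟨L0, hL01, hL0⟩ := lim0 hc hη
  refine ⟨L0, hL01, ?_⟩
  intro L R hL hR
  have h1 : ∑ r ∈ range 6, F r L R ≤ ∑ r ∈ range 6, ((κ r + η) * L ^ (-θ)) :=
    Finset.sum_le_sum (fun r hr =>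
      (F_anti r le_rfl hR).trans (hL0 L hL r (mem_range.mp hr)).2)
  have h2 : ∑ r ∈ range 6, ((κ r + η) * L ^ (-θ)) = 6 * ((mean κ + η) * L ^ (-θ)) := by
    rw [← Finset.sum_mul, Finset.sum_add_distrib]
    unfold mean
    rw [Finset.sum_const, Finset.card_range, nsmul_eq_mul]
    push_cast
    ring
  linarith

lemma sum_low0 {θ : ℝ} {v κ : ℕ → ℝ} (hPar : Par θ v)
    (hc : ∀ r : ℕ, r < 6 → Tendsto (fun L : ℝ => F r L 0 * L ^ θ) atTop (nhds (κ r)))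
    {η : ℝ} (hη : 0 < η) :
    ∃ L0 R0 : ℝ, 1 ≤ L0 ∧ 0 < R0 ∧ R0 ≤ 1 ∧ ∀ L R : ℝ, L0 ≤ L → 0 < R → R ≤ R0 →
      6 * ((mean κ - η) * L ^ (-θ)) ≤ ∑ r ∈ range 6, F r L R := by
  obtain ⟨L0, hL01, hL0⟩ := lim0 hc (show 0 < η / 2 by linarith)
  obtain ⟨C, hC, hb⟩ := Pool.H75.EV.base hPar
  refine ⟨L0, min 1 (η / (2 * C)), hL01, lt_min one_pos (by positivity), min_le_left _ _, ?_⟩
  intro L R hL hR hR0
  have hR1 : R ≤ 1 := hR0.trans (min_le_left _ _)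
  have hR2 : R ≤ η / (2 * C) := hR0.trans (min_le_right _ _)
  have hLpos : 0 < L := by linarith
  have hLp : 0 < L ^ (-θ) := Real.rpow_pos_of_pos hLpos _
  have hRθ : R ^ θ ≤ R := by
    have h1 : R ^ θ ≤ R ^ (1 : ℝ) :=
      Real.rpow_le_rpow_of_exponent_ge hR hR1 (by linarith [hPar.hθ1])
    rwa [Real.rpow_one] at h1
  have hCR : C * R ^ θ ≤ η / 2 := by
    rw [le_div_iff₀ (by positivity)] at hR2
    have h1 := mul_le_mul_of_nonneg_left hRθ hC.le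
    linarith
  have h1 : ∑ r ∈ range 6, ((κ r - η) * L ^ (-θ)) ≤ ∑ r ∈ range 6, F r L R := by
    refine Finset.sum_le_sum ?_
    intro r hr
    have a1 := (hL0 L hL r (mem_range.mp hr)).1
    have a2 := hb r L R (mem_range.mp hr) hLpos hR
    have e3 : (R / L) ^ θ = R ^ θ * L ^ (-θ) := by
      rw [Real.div_rpow hR.le hLpos.le, Real.rpow_neg hLpos.le, div_eq_mul_inv]
    rw [e3] at a2
    have a3 : C * (R ^ θ * L ^ (-θ)) ≤ η / 2 * L ^ (-θ) := by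
      have := mul_le_mul_of_nonneg_right hCR hLp.le
      linarith
    have e4 : (κ r - η) * L ^ (-θ) = (κ r - η / 2) * L ^ (-θ) - η / 2 * L ^ (-θ) := by ring
    rw [e4]
    linarith
  have h2 : ∑ r ∈ range 6, ((κ r - η) * L ^ (-θ)) = 6 * ((mean κ - η) * L ^ (-θ)) := by
    rw [← Finset.sum_mul, Finset.sum_sub_distrib]
    unfold mean
    rw [Finset.sum_const, Finset.card_range, nsmul_eq_mul]
    push_cast
    ring
  linarith

open Classical in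
lemma le_card_IocR (P : ℕ → Prop) (L R : ℝ) (u w : ℕ)
    (hP : ∀ n, u < n → n ≤ w → BigR L R n → P n) :
    ∑ j ∈ range 6, NL (u + 1 + j) 1 L R ((w - u) / 6) ≤ ((Ioc u w).filter P).card := by
  have h := Pool.Agent.H83.EX.card_split 6 (w - u) (by norm_num)
    (fun j s => BigR L R (u + 1 + j + 6 * 1 * s) ∧ 6 * s + j < w - u)
    (fun t => P (u + 1 + t))
    (by
      intro j hj s hq
      have e : u + 1 + (6 * s + j) = u + 1 + j + 6 * 1 * s := by ring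
      rw [e]
      exact hP _ (by omega) (by omega) hq.1)
  refine le_trans ?_ (le_trans h ?_)
  · refine Finset.sum_le_sum ?_
    intro j hj
    rw [mem_range] at hj
    unfold NL
    refine Finset.card_le_card ?_
    intro s hs
    rw [mem_filter, mem_range] at hs ⊢
    exact ⟨hs.1, hs.2, by omega⟩
  · refine Finset.card_le_card_of_injOn (fun t => u + 1 + t) ?_ ?_
    · intro t ht
      rw [Finset.mem_coe, mem_filter, mem_range] at ht
      rw [Finset.mem_coe, mem_filter, mem_Ioc]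
      beta_reduce
      exact ⟨by omega, ht.2⟩
    · intro a _ b _ hab
      simp only at hab
      omega

lemma intLow0 {θ : ℝ} {v κ : ℕ → ℝ} (hPar : Par θ v)
    (hc : ∀ r : ℕ, r < 6 → Tendsto (fun L : ℝ => F r L 0 * L ^ θ) atTop (nhds (κ r)))
    {η ε : ℝ} (hη : 0 < η) (hε : 0 < ε) (hε1 : ε < 1) (hκη : 0 ≤ mean κ - η) :
    ∃ L0 R0 D : ℝ, 1 ≤ L0 ∧ 0 < R0 ∧ R0 ≤ 1 ∧ 0 ≤ D ∧ ∀ M L R : ℝ, 1 ≤ M → L0 ≤ L → 0 < R →
      R ≤ R0 → ∀ P : ℕ → Prop,
      (∀ n : ℕ, (1 - ε) * M < n → (n : ℝ) ≤ M → BigR L R n → P n) →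
      (cnt P ((1 - ε) * M) : ℝ) + (mean κ - η) * ε * M * L ^ (-θ) -
        D / R * M ^ (43 / 50 : ℝ) ≤ cnt P M := by
  classical
  obtain ⟨B, hB0, hB⟩ := Pool.Agent.H87.EV.lowF
  obtain ⟨L0, R0, hL01, hR0, hR01, hlow⟩ := sum_low0 hPar hc hη
  refine ⟨L0, R0, 6 * B + 6 * (mean κ - η), hL01, hR0, hR01, by positivity, ?_⟩
  intro M L R hM hL hR hRR0 P hP
  have hR1 : R ≤ 1 := hRR0.trans hR01
  have hM0 : 0 < M := by linarith
  have hL1 : 1 ≤ L := hL01.trans hL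
  have hθ : 0 < θ := by linarith [hPar.hθ1]
  have hLp : 0 < L ^ (-θ) := Real.rpow_pos_of_pos (by linarith) _
  have hLp1 : L ^ (-θ) ≤ 1 := Real.rpow_le_one_of_one_le_of_nonpos hL1 (by linarith)
  have ha0 : 0 ≤ (1 - ε) * M := mul_nonneg (by linarith) hM0.le
  have hab : (1 - ε) * M ≤ M := by nlinarith
  have hs := cnt_split P hab
  set u := ⌊(1 - ε) * M⌋₊ with hu
  set w := ⌊M⌋₊ with hw
  have huw : u ≤ w := Nat.floor_le_floor hab
  have hl := le_card_IocR P L R u w (by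
    intro n h1 h2 h3
    refine hP n ((Nat.floor_lt ha0).mp h1) ?_ h3
    exact (Nat.le_floor_iff hM0.le).mp h2)
  set T : ℕ := (w - u) / 6 with hT
  have hsum : ∑ j ∈ range 6, ((T : ℝ) * F ((u + 1 + j) % 6) L R -
      B * (T : ℝ) ^ (43 / 50 : ℝ) / R) ≤ ∑ j ∈ range 6, (NL (u + 1 + j) 1 L R T : ℝ) :=
    Finset.sum_le_sum (fun j _ => hB T (u + 1 + j) 1 L R (by norm_num) (by norm_num)
      (by linarith) hR)
  have hsum2 : ∑ j ∈ range 6, ((T : ℝ) * F ((u + 1 + j) % 6) L R -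
      B * (T : ℝ) ^ (43 / 50 : ℝ) / R) =
      T * (∑ r ∈ range 6, F r L R) - 6 * (B * (T : ℝ) ^ (43 / 50 : ℝ) / R) := by
    rw [Finset.sum_sub_distrib, ← Finset.mul_sum, sum_mod (fun r => F r L R) (u + 1)]
    simp
  have hF := hlow L R hL hR hRR0
  have hT2 : ε * M / 6 - 1 ≤ (T : ℝ) := by
    have h1 : w - u ≤ T * 6 + 5 := by omega
    have h2 : ((w - u : ℕ) : ℝ) ≤ ((T * 6 + 5 : ℕ) : ℝ) := by exact_mod_cast h1
    rw [Nat.cast_sub huw] at h2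
    push_cast at h2
    have h3 : M < w + 1 := Nat.lt_floor_add_one _
    have h4 : (u : ℝ) ≤ (1 - ε) * M := Nat.floor_le ha0
    linarith
  have hT0 : (0 : ℝ) ≤ T := Nat.cast_nonneg T
  have hTM : (T : ℝ) ≤ M := by
    have h1 : T ≤ w := by omega
    have h2 : (T : ℝ) ≤ (w : ℝ) := by exact_mod_cast h1
    exact h2.trans (Nat.floor_le hM0.le)
  have hTp : (T : ℝ) ^ (43 / 50 : ℝ) ≤ M ^ (43 / 50 : ℝ) := Real.rpow_le_rpow hT0 hTM (by norm_num)
  have hM1 : 1 ≤ M ^ (43 / 50 : ℝ) := Real.one_le_rpow hM (by norm_num)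
  have hcast : ∑ j ∈ range 6, (NL (u + 1 + j) 1 L R T : ℝ) ≤
      (((Ioc u w).filter P).card : ℝ) := by exact_mod_cast hl
  have hsr : (cnt P M : ℝ) = (cnt P ((1 - ε) * M) : ℝ) + (((Ioc u w).filter P).card : ℝ) := by
    exact_mod_cast hs
  rw [hsr]
  set X := 6 * ((mean κ - η) * L ^ (-θ)) with hX
  have hX0 : 0 ≤ X := by positivity
  have hX6 : X ≤ 6 * (mean κ - η) := by
    rw [hX]
    nlinarith
  have hTX : (ε * M / 6 - 1) * X ≤ T * (∑ r ∈ range 6, F r L R) := by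
    have h1 := mul_le_mul_of_nonneg_right hT2 hX0
    have h2 := mul_le_mul_of_nonneg_left hF hT0
    linarith
  have hRi : 1 ≤ 1 / R := by
    rw [le_div_iff₀ hR]
    linarith
  have hMR : M ^ (43 / 50 : ℝ) ≤ M ^ (43 / 50 : ℝ) / R := by
    rw [le_div_iff₀ hR]
    nlinarith
  have hBT : B * (T : ℝ) ^ (43 / 50 : ℝ) / R ≤ B * (M ^ (43 / 50 : ℝ) / R) := by
    rw [mul_div_assoc]
    exact mul_le_mul_of_nonneg_left (div_le_div_of_nonneg_right hTp hR.le) hB0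
  have hXM : X ≤ 6 * (mean κ - η) * (M ^ (43 / 50 : ℝ) / R) := by
    have h0 : 0 ≤ 6 * (mean κ - η) := by positivity
    have h1 : 6 * (mean κ - η) * 1 ≤ 6 * (mean κ - η) * (M ^ (43 / 50 : ℝ) / R) :=
      mul_le_mul_of_nonneg_left (hM1.trans hMR) h0
    linarith
  have e1 : (ε * M / 6 - 1) * X = (mean κ - η) * ε * M * L ^ (-θ) - X := by
    rw [hX]
    ring
  rw [e1] at hTX
  rw [hsum2] at hsum
  have e2 : (6 * B + 6 * (mean κ - η)) / R * M ^ (43 / 50 : ℝ) =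
      6 * (B * (M ^ (43 / 50 : ℝ) / R)) + 6 * (mean κ - η) * (M ^ (43 / 50 : ℝ) / R) := by
    ring
  rw [e2]
  linarith

lemma factor_bound0 {ε : ℝ} (hε : 0 < ε) (hε1 : ε ≤ 1 / 4) :
    ∃ M0 : ℝ, 1 ≤ M0 ∧ ∀ M R : ℝ, M0 ≤ M → ((1 - ε) * M) ^ (1 / 2 : ℝ) ≤ R →
      (1 + 1 / (2 * R)) ^ (Nat.log 2 ⌊M⌋₊ + 1) * (M + 1 / 4) ≤ (1 + ε) * M ∧
      (1 + 1 / (2 * R)) ^ (Nat.log 2 ⌊M⌋₊ + 1) ≤ 2 := by
  have t1 : Tendsto (fun M : ℝ => Real.log M / M ^ (1 / 2 : ℝ)) atTop (nhds 0) :=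
    (isLittleO_log_rpow_atTop (by norm_num)).tendsto_div_nhds_zero
  have t2 : Tendsto (fun M : ℝ => 1 / M ^ (1 / 2 : ℝ)) atTop (nhds 0) :=
    tendsto_const_nhds.div_atTop (tendsto_rpow_atTop (by norm_num))
  have hl2 : 0 < Real.log 2 := Real.log_pos (by norm_num)
  have t3 : Tendsto (fun M : ℝ => (1 / Real.log 2) * (Real.log M / M ^ (1 / 2 : ℝ)) +
      1 / M ^ (1 / 2 : ℝ)) atTop (nhds ((1 / Real.log 2) * 0 + 0)) := (t1.const_mul _).add t2
  rw [mul_zero, add_zero] at t3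
  have t4 : Tendsto (fun M : ℝ => Real.exp ((1 / Real.log 2) * (Real.log M / M ^ (1 / 2 : ℝ)) +
      1 / M ^ (1 / 2 : ℝ))) atTop (nhds (Real.exp 0)) := (Real.continuous_exp.tendsto 0).comp t3
  rw [Real.exp_zero] at t4
  have t5 := t4.eventually (gt_mem_nhds (show (1 : ℝ) < 1 + ε / 2 by linarith))
  obtain ⟨M1, hM1⟩ := Filter.eventually_atTop.mp t5
  refine ⟨max (max M1 1) (1 / ε), (le_max_right _ _).trans (le_max_left _ _), ?_⟩
  intro M R hM hR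
  have hMM1 : M1 ≤ M := ((le_max_left _ _).trans (le_max_left _ _)).trans hM
  have hM1' : 1 ≤ M := ((le_max_right _ _).trans (le_max_left _ _)).trans hM
  have hMε : 1 / ε ≤ M := (le_max_right _ _).trans hM
  have hM0 : 0 < M := by linarith
  have h1 := hM1 M hMM1
  set m := Nat.log 2 ⌊M⌋₊ with hm
  have hfl : ⌊M⌋₊ ≠ 0 := by
    have : 1 ≤ ⌊M⌋₊ := (Nat.one_le_floor_iff M).mpr hM1'
    omega
  have h2 : 2 ^ m ≤ ⌊M⌋₊ := Nat.pow_log_le_self 2 hfl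
  have h3 : (2 : ℝ) ^ m ≤ M := by
    have : ((2 ^ m : ℕ) : ℝ) ≤ (⌊M⌋₊ : ℝ) := by exact_mod_cast h2
    push_cast at this
    exact this.trans (Nat.floor_le hM0.le)
  have h4 : (m : ℝ) * Real.log 2 ≤ Real.log M := by
    rw [← Real.log_pow]
    exact Real.log_le_log (by positivity) h3
  have h5 : (m : ℝ) ≤ Real.log M / Real.log 2 := by
    rw [le_div_iff₀ hl2]
    exact h4
  have hMs : 0 < M ^ (1 / 2 : ℝ) := Real.rpow_pos_of_pos hM0 _
  have hhalf : 1 / 2 * M ^ (1 / 2 : ℝ) ≤ R := by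
    refine le_trans ?_ hR
    rw [Real.mul_rpow (by linarith) hM0.le]
    refine mul_le_mul_of_nonneg_right ?_ hMs.le
    have h6 : (1 / 4 : ℝ) ^ (1 / 2 : ℝ) ≤ (1 - ε) ^ (1 / 2 : ℝ) :=
      Real.rpow_le_rpow (by norm_num) (by linarith) (by norm_num)
    have h7 : (1 / 4 : ℝ) ^ (1 / 2 : ℝ) = 1 / 2 := by
      rw [← Real.sqrt_eq_rpow]
      rw [show (1 / 4 : ℝ) = (1 / 2) ^ 2 by norm_num]
      exact Real.sqrt_sq (by norm_num)
    linarith
  have hR0 : 0 < R := by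
    have : 0 < 1 / 2 * M ^ (1 / 2 : ℝ) := by positivity
    linarith
  have hinv : 1 / (2 * R) ≤ 1 / M ^ (1 / 2 : ℝ) := by
    apply one_div_le_one_div_of_le hMs
    linarith
  have h6 : (1 + 1 / (2 * R)) ^ (m + 1) ≤ 1 + ε / 2 := by
    have b1 : 1 + 1 / (2 * R) ≤ Real.exp (1 / (2 * R)) := by
      have := Real.add_one_le_exp (1 / (2 * R))
      linarith
    have b2 : (1 + 1 / (2 * R)) ^ (m + 1) ≤ Real.exp (1 / (2 * R)) ^ (m + 1) :=
      pow_le_pow_left₀ (by positivity) b1 _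
    rw [← Real.exp_nat_mul] at b2
    refine b2.trans (le_trans ?_ h1.le)
    refine Real.exp_le_exp.mpr ?_
    push_cast
    have b0 : 0 ≤ Real.log M / Real.log 2 + 1 := by
      have : 0 ≤ Real.log M := Real.log_nonneg hM1'
      positivity
    have b3 : ((m : ℝ) + 1) * (1 / (2 * R)) ≤
        (Real.log M / Real.log 2 + 1) * (1 / M ^ (1 / 2 : ℝ)) :=
      mul_le_mul (by linarith) hinv (by positivity) b0
    refine b3.trans (le_of_eq ?_)
    field_simp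
  refine ⟨?_, by linarith⟩
  have h7 : M + 1 / 4 ≤ (1 + ε / 4) * M := by
    have : 1 ≤ ε * M := by
      rw [div_le_iff₀ hε] at hMε
      linarith
    linarith
  calc (1 + 1 / (2 * R)) ^ (m + 1) * (M + 1 / 4)
      ≤ (1 + ε / 2) * ((1 + ε / 4) * M) :=
        mul_le_mul h6 h7 (by linarith) (by linarith)
    _ ≤ (1 + ε) * M := by nlinarith

lemma intUp0 {θ : ℝ} {κ : ℕ → ℝ} (hθ : 0 < θ) (hκ : 0 ≤ mean κ)
    (hc : ∀ r : ℕ, r < 6 → Tendsto (fun L : ℝ => F r L 0 * L ^ θ) atTop (nhds (κ r)))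
    {η : ℝ} (hη : 0 < η) :
    ∃ ε₁ : ℝ, 0 < ε₁ ∧ ε₁ ≤ 1 / 4 ∧ ∀ ε : ℝ, 0 < ε → ε ≤ ε₁ →
    ∃ M0 L0 D : ℝ, 1 ≤ M0 ∧ 1 ≤ L0 ∧ 0 ≤ D ∧ ∀ M X R : ℝ, M0 ≤ M →
      ((1 - ε) * M) ^ (1 / 2 : ℝ) ≤ R → R ≤ M → L0 * M ≤ X → ∀ P : ℕ → Prop,
      (∀ n : ℕ, (1 - ε) * M < n → (n : ℝ) ≤ M → P n → Reach X R n) →
      (cnt P M : ℝ) ≤ cnt P ((1 - ε) * M) + (mean κ + η) * ε * M * (X / M) ^ (-θ) +
        D * (M / R) * M ^ (43 / 50 : ℝ) := by
  classical
  obtain ⟨B, hB0, hB⟩ := Pool.Agent.H19.EV.upF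
  obtain ⟨L1, hL11, hL1⟩ := sum_up0 hc (show 0 < η / 2 by linarith)
  -- the factor `(1 + ε)^θ`
  set s : ℝ := η / (2 * mean κ + η) with hs
  have hs0 : 0 < s := by positivity
  have tc : Tendsto (fun ε : ℝ => (1 + ε) ^ θ) (nhds 0) (nhds ((1 + 0) ^ θ)) := by
    have : ContinuousAt (fun ε : ℝ => (1 + ε) ^ θ) 0 := by
      refine ContinuousAt.rpow_const ?_ (Or.inl (by norm_num))
      fun_prop
    exact this
  have e0 : ((1 : ℝ) + 0) ^ θ = 1 := by norm_num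
  rw [e0] at tc
  have tc2 := tc.eventually (gt_mem_nhds (show (1 : ℝ) < 1 + s by linarith))
  obtain ⟨δ, hδ, hδ'⟩ := Metric.eventually_nhds_iff.mp tc2
  refine ⟨min (1 / 4) (δ / 2), by positivity, min_le_left _ _, ?_⟩
  intro ε hε hεle
  have hε2 : ε ≤ 1 / 4 := hεle.trans (min_le_left _ _)
  have hε3 : ε ≤ δ / 2 := hεle.trans (min_le_right _ _)
  have hfac : (1 + ε) ^ θ ≤ 1 + s := by
    refine (hδ' ?_).le
    rw [Real.dist_eq, sub_zero, abs_of_pos hε]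
    linarith
  obtain ⟨M1, hM11, hM1⟩ := factor_bound0 hε hε2
  refine ⟨max M1 4, 2 * L1, 48 * B + 6 * (mean κ + η), hM11.trans (le_max_left _ _), by linarith,
    by positivity, ?_⟩
  intro M X R hM hRlow hRM hXM P hP
  have hMM1 : M1 ≤ M := (le_max_left _ _).trans hM
  have hM4 : 4 ≤ M := (le_max_right _ _).trans hM
  have hM1' : 1 ≤ M := by linarith
  have hM0 : 0 < M := by linarith
  have hX0 : 0 < X := by nlinarith
  obtain ⟨hz1, hz2⟩ := hM1 M R hMM1 hRlow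
  have hRhalf : 1 / 2 ≤ R := by
    refine le_trans ?_ hRlow
    have h1 : (1 : ℝ) ≤ ((1 - ε) * M) ^ (1 / 2 : ℝ) := Real.one_le_rpow (by nlinarith) (by norm_num)
    linarith
  have hR0 : 0 < R := by linarith
  have hx : 1 / 2 ≤ X := by nlinarith
  set q : ℝ := (1 - ε) * M with hq
  have hq0 : 0 < q := mul_pos (by linarith) hM0
  set m := Nat.log 2 ⌊M⌋₊ + 1 with hm
  set z : ℝ := (1 + 1 / (2 * R)) ^ m with hz
  have hz0 : 0 < z := by positivity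
  have hab : q ≤ M := by rw [hq]; nlinarith
  have hsplit := cnt_split P hab
  set u := ⌊q⌋₊ with hu
  set w := ⌊M⌋₊ with hw
  have huw : u ≤ w := Nat.floor_le_floor hab
  have hl := card_Ioc_le P X R u w (by
    intro n h1 h2 h3
    exact hP n ((Nat.floor_lt hq0.le).mp h1) ((Nat.le_floor_iff hM0.le).mp h2) h3)
  have hwlt : w < 2 ^ m := Nat.lt_pow_succ_log_self (by norm_num) w
  have hwM : (w : ℝ) ≤ M := Nat.floor_le hM0.le
  have hzy0 : 0 < z * (M + 1 / 4) := by positivity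
  have hL'' : X / ((1 + ε) * M) ≤ X / (z * (M + 1 / 4)) :=
    div_le_div_of_nonneg_left hX0.le hzy0 hz1
  have hL1le : L1 ≤ X / ((1 + ε) * M) := by
    rw [le_div_iff₀ (by positivity)]
    nlinarith
  have hsumF : ∑ r ∈ range 6, F r (X / (z * (M + 1 / 4))) (R / (z * (M + 1 / 4))) ≤
      6 * ((mean κ + η) * (X / M) ^ (-θ)) := by
    have h1 : ∑ r ∈ range 6, F r (X / (z * (M + 1 / 4))) (R / (z * (M + 1 / 4))) ≤
        ∑ r ∈ range 6, F r (X / ((1 + ε) * M)) (R / (z * (M + 1 / 4))) :=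
      Finset.sum_le_sum (fun r _ => F_anti r hL'' le_rfl)
    have h2 := hL1 (X / ((1 + ε) * M)) (R / (z * (M + 1 / 4))) hL1le (by positivity)
    have e2 : (X / ((1 + ε) * M)) ^ (-θ) = (1 + ε) ^ θ * (X / M) ^ (-θ) := by
      have : X / ((1 + ε) * M) = (1 + ε)⁻¹ * (X / M) := by
        field_simp
      rw [this, Real.mul_rpow (by positivity) (by positivity)]
      congr 1
      rw [Real.inv_rpow (by linarith), Real.rpow_neg (by linarith), inv_inv]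
    rw [e2] at h2
    have hXp : 0 < (X / M) ^ (-θ) := Real.rpow_pos_of_pos (by positivity) _
    have h3 : (mean κ + η / 2) * ((1 + ε) ^ θ * (X / M) ^ (-θ)) ≤
        (mean κ + η / 2) * ((1 + s) * (X / M) ^ (-θ)) :=
      mul_le_mul_of_nonneg_left (mul_le_mul_of_nonneg_right hfac hXp.le) (by positivity)
    have h4 : (mean κ + η / 2) * (1 + s) = mean κ + η := by
      rw [hs]
      have : 2 * mean κ + η ≠ 0 := by positivity
      field_simp
      ring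
    have h5 : (mean κ + η / 2) * ((1 + s) * (X / M) ^ (-θ)) = (mean κ + η) * (X / M) ^ (-θ) := by
      rw [← h4]
      ring
    linarith
  have hcls : ∀ j ∈ range 6, (NU (u + 1 + j) 1 X R ((w - u + 6 - 1 - j) / 6) : ℝ) ≤
      (ε * M / 6 + 1) * F ((u + 1 + j) % 6) (X / (z * (M + 1 / 4))) (R / (z * (M + 1 / 4))) +
        8 * B * (M / R) * M ^ (43 / 50 : ℝ) := by
    intro j hj
    rw [mem_range] at hj
    set T : ℕ := (w - u + 6 - 1 - j) / 6 with hT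
    have hTw : T ≤ w := by omega
    have hup := hB X R hx hRhalf m T (by omega) (u + 1 + j) 1 M (by norm_num) (by norm_num)
      hM0.le (by
        intro s hs
        have h1 : u + 1 + j + 6 * 1 * s ≤ w := by omega
        have h2 : ((u + 1 + j + 6 * 1 * s : ℕ) : ℝ) ≤ (w : ℝ) := by exact_mod_cast h1
        exact h2.trans hwM)
    rw [← hz] at hup
    refine hup.trans ?_
    have hT0 : (0 : ℝ) ≤ T := Nat.cast_nonneg T
    have hT1 : (T : ℝ) ≤ ε * M / 6 + 1 := by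
      have h1 : T * 6 ≤ w - u + 5 := by omega
      have h2 : ((T * 6 : ℕ) : ℝ) ≤ ((w - u + 5 : ℕ) : ℝ) := by exact_mod_cast h1
      rw [Nat.cast_add, Nat.cast_sub huw] at h2
      push_cast at h2
      have h4 : q < u + 1 := Nat.lt_floor_add_one _
      rw [hq] at h4
      linarith
    have hTM : (T : ℝ) ≤ M := by
      have h2 : (T : ℝ) ≤ (w : ℝ) := by exact_mod_cast hTw
      exact h2.trans hwM
    have hTp : (T : ℝ) ^ (43 / 50 : ℝ) ≤ M ^ (43 / 50 : ℝ) :=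
      Real.rpow_le_rpow hT0 hTM (by norm_num)
    have hyR : (M + 1 / 4) / R ≤ 4 * (M / R) := by
      rw [← mul_div_assoc]
      exact div_le_div_of_nonneg_right (by linarith) hR0.le
    have hFnn : 0 ≤ F ((u + 1 + j) % 6) (X / (z * (M + 1 / 4))) (R / (z * (M + 1 / 4))) :=
      F_nonneg _ _ _
    have hMR0 : 0 ≤ M / R := by positivity
    refine add_le_add (mul_le_mul_of_nonneg_right hT1 hFnn) ?_
    calc B * z * (T : ℝ) ^ (43 / 50 : ℝ) * ((M + 1 / 4) / R)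
        ≤ B * 2 * M ^ (43 / 50 : ℝ) * (4 * (M / R)) := by
          refine mul_le_mul ?_ hyR (by positivity) (by positivity)
          refine mul_le_mul ?_ hTp (by positivity) (by positivity)
          exact mul_le_mul_of_nonneg_left hz2 hB0
      _ = 8 * B * (M / R) * M ^ (43 / 50 : ℝ) := by ring
  have hsum := Finset.sum_le_sum hcls
  have hsum2 : ∑ j ∈ range 6, ((ε * M / 6 + 1) * F ((u + 1 + j) % 6)
      (X / (z * (M + 1 / 4))) (R / (z * (M + 1 / 4))) + 8 * B * (M / R) * M ^ (43 / 50 : ℝ)) =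
      (ε * M / 6 + 1) * (∑ r ∈ range 6, F r (X / (z * (M + 1 / 4)))
        (R / (z * (M + 1 / 4)))) + 48 * B * (M / R) * M ^ (43 / 50 : ℝ) := by
    rw [Finset.sum_add_distrib, ← Finset.mul_sum,
      sum_mod (fun r => F r (X / (z * (M + 1 / 4))) (R / (z * (M + 1 / 4)))) (u + 1)]
    simp
    ring
  rw [hsum2] at hsum
  have hcast : (((Ioc u w).filter P).card : ℝ) ≤
      ∑ j ∈ range 6, (NU (u + 1 + j) 1 X R ((w - u + 6 - 1 - j) / 6) : ℝ) := by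
    exact_mod_cast hl
  have hsr : (cnt P M : ℝ) = (cnt P q : ℝ) + (((Ioc u w).filter P).card : ℝ) := by
    exact_mod_cast hsplit
  rw [hsr]
  have hM1p : 1 ≤ M ^ (43 / 50 : ℝ) := Real.one_le_rpow hM1' (by norm_num)
  have hMR1 : 1 ≤ M / R := by
    rw [le_div_iff₀ hR0]
    linarith
  have hXM1 : 1 ≤ X / M := by
    rw [le_div_iff₀ hM0]
    nlinarith
  have hXle : (X / M) ^ (-θ) ≤ 1 := Real.rpow_le_one_of_one_le_of_nonpos hXM1 (by linarith)
  have hXp : 0 < (X / M) ^ (-θ) := Real.rpow_pos_of_pos (by positivity) _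
  have h1 : (ε * M / 6 + 1) * (∑ r ∈ range 6, F r (X / (z * (M + 1 / 4)))
        (R / (z * (M + 1 / 4)))) ≤ (ε * M / 6 + 1) * (6 * ((mean κ + η) * (X / M) ^ (-θ))) :=
    mul_le_mul_of_nonneg_left hsumF (by positivity)
  have h2 : (ε * M / 6 + 1) * (6 * ((mean κ + η) * (X / M) ^ (-θ))) =
      (mean κ + η) * ε * M * (X / M) ^ (-θ) + 6 * (mean κ + η) * (X / M) ^ (-θ) := by ring
  have h3 : 6 * (mean κ + η) * (X / M) ^ (-θ) ≤
      6 * (mean κ + η) * ((M / R) * M ^ (43 / 50 : ℝ)) := by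
    refine mul_le_mul_of_nonneg_left ?_ (by positivity)
    have : 1 ≤ (M / R) * M ^ (43 / 50 : ℝ) := by nlinarith
    linarith
  have e9 : (48 * B + 6 * (mean κ + η)) * (M / R) * M ^ (43 / 50 : ℝ) =
      48 * B * (M / R) * M ^ (43 / 50 : ℝ) +
      6 * (mean κ + η) * ((M / R) * M ^ (43 / 50 : ℝ)) := by ring
  rw [e9]
  linarith

end Pool.Agent.H12.EW
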