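import Pool.Agent.H12.EV.Model
import Pool.Agent.H12.EU.Const
import Pool.Agent.H75.EV.Barrier
import Pool.Agent.H83.EX.Fin

/-!
A lower bound for the counts by the probabilities of the model, with an error term which decreases
in `L` and does not depend on the barrier.
-/

set_option autoImplicit false

namespace Pool.Agent.H12.EW

open Pool.Agent.H12.EV Pool.Agent.H12.EU Pool.Agent.H83.EX

lemma uN_pos (r : ℕ) : 0 < uN r := by
  unfold uN
  split <;> norm_num

/-- The error term. -/
noncomputable def Er (B u T L : ℝ) : ℝ := B * u * T ^ (43 / 45 : ℝ) * L ^ (-2 : ℝ)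

lemma Er_add (B u u' T L : ℝ) : Er B (u + u') T L = Er B u T L + Er B u' T L := by
  unfold Er
  ring

lemma Er_nonneg {B u T L : ℝ} (hB : 0 ≤ B) (hu : 0 ≤ u) (hT : 0 ≤ T) (hL : 0 ≤ L) :
    0 ≤ Er B u T L := by
  unfold Er
  positivity

lemma stepG {C B : ℝ} (hC : 0 ≤ C) (hB : 0 ≤ B) (hBη : 2 * C ≤ B * (1 / 100000)) {k T : ℕ}
    (hk : k = 2 ∨ k = 3) (hT : 1 ≤ T) {L : ℝ}
    (hL : 1 ≤ L) {f u S US : ℝ} (hf0 : 0 ≤ f) (hf1 : f ≤ C * L ^ (-2 : ℝ)) (hUS : 0 ≤ US)
    (hS : S = k * f) (hu : (k : ℝ) ^ ((2 / 45 : ℝ) - 2) * US / k + 1 / 100000 ≤ u) :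
    (T : ℝ) * f - Er B u T L ≤ ((T / k : ℕ) : ℝ) * S - Er B US ((T / k : ℕ) : ℝ) (k * L) := by
  have hk2 : (2 : ℝ) ≤ k := by
    rcases hk with h | h <;> rw [h] <;> norm_num
  have hk0 : (0 : ℝ) < k := by linarith
  have hknat : 0 < k := by omega
  have hL0 : (0 : ℝ) < L := by linarith
  have hT1 : (1 : ℝ) ≤ T := by exact_mod_cast hT
  have h1 : (T : ℝ) * f - 2 * f ≤ ((T / k : ℕ) : ℝ) * S := by
    have h2 : (T : ℝ) - 2 ≤ k * ((T / k : ℕ) : ℝ) := by
      have h3 : T ≤ k * (T / k) + 2 := by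
        rcases hk with rfl | rfl <;> omega
      have h4 : (T : ℝ) ≤ ((k * (T / k) + 2 : ℕ) : ℝ) := by exact_mod_cast h3
      push_cast at h4
      linarith
    have h5 : ((T / k : ℕ) : ℝ) * S = (k * ((T / k : ℕ) : ℝ)) * f := by
      rw [hS]
      ring
    rw [h5]
    have h6 := mul_le_mul_of_nonneg_right h2 hf0
    linarith
  set m : ℝ := ((T / k : ℕ) : ℝ) with hm
  have hm0 : 0 ≤ m := Nat.cast_nonneg _
  have hm2 : m ≤ (T : ℝ) / k := Nat.cast_div_le
  have hy : 0 < L ^ (-2 : ℝ) := Real.rpow_pos_of_pos hL0 _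
  have e2 : ((k : ℝ) * L) ^ (-2 : ℝ) = (k : ℝ) ^ (-2 : ℝ) * L ^ (-2 : ℝ) :=
    Real.mul_rpow hk0.le hL0.le
  have hTp : 1 ≤ (T : ℝ) ^ (43 / 45 : ℝ) := Real.one_le_rpow hT1 (by norm_num)
  have p2 : Er B US m (k * L) ≤ B * (u - 1 / 100000) * (T : ℝ) ^ (43 / 45 : ℝ) * L ^ (-2 : ℝ) := by
    unfold Er
    rw [e2]
    have h1 : m ^ (43 / 45 : ℝ) ≤ (T : ℝ) ^ (43 / 45 : ℝ) * (k : ℝ) ^ (-(43 / 45) : ℝ) := by
      have h2 : m ^ (43 / 45 : ℝ) ≤ ((T : ℝ) / k) ^ (43 / 45 : ℝ) :=
        Real.rpow_le_rpow hm0 hm2 (by norm_num)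
      rw [Real.div_rpow (by linarith) hk0.le] at h2
      rw [Real.rpow_neg hk0.le, ← div_eq_mul_inv]
      exact h2
    have h4 : (k : ℝ) ^ (-(43 / 45) : ℝ) * (k : ℝ) ^ (-2 : ℝ) =
        (k : ℝ) ^ ((2 / 45 : ℝ) - 2) / k := by
      rw [← Real.rpow_add hk0, ← Real.rpow_sub_one hk0.ne']
      congr 1
      norm_num
    have h5 : 0 ≤ B * US := mul_nonneg hB hUS
    have h6 : 0 < (k : ℝ) ^ (-2 : ℝ) := Real.rpow_pos_of_pos hk0 _
    calc B * US * m ^ (43 / 45 : ℝ) * ((k : ℝ) ^ (-2 : ℝ) * L ^ (-2 : ℝ))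
        ≤ B * US * ((T : ℝ) ^ (43 / 45 : ℝ) * (k : ℝ) ^ (-(43 / 45) : ℝ)) *
            ((k : ℝ) ^ (-2 : ℝ) * L ^ (-2 : ℝ)) := by
          have := mul_le_mul_of_nonneg_left h1 h5
          exact mul_le_mul_of_nonneg_right this (by positivity)
      _ = B * (((k : ℝ) ^ (-(43 / 45) : ℝ) * (k : ℝ) ^ (-2 : ℝ)) * US) *
            (T : ℝ) ^ (43 / 45 : ℝ) * L ^ (-2 : ℝ) := by
          ring
      _ = B * ((k : ℝ) ^ ((2 / 45 : ℝ) - 2) * US / k) * (T : ℝ) ^ (43 / 45 : ℝ) *
            L ^ (-2 : ℝ) := by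
          rw [h4]
          ring
      _ ≤ B * (u - 1 / 100000) * (T : ℝ) ^ (43 / 45 : ℝ) * L ^ (-2 : ℝ) := by
          have h7 : (k : ℝ) ^ ((2 / 45 : ℝ) - 2) * US / k ≤ u - 1 / 100000 := by linarith
          have h8 := mul_le_mul_of_nonneg_left h7 hB
          have h9 : 0 ≤ (T : ℝ) ^ (43 / 45 : ℝ) := by linarith
          exact mul_le_mul_of_nonneg_right (mul_le_mul_of_nonneg_right h8 h9) hy.le
  have p3 : 2 * C * L ^ (-2 : ℝ) ≤ B * (1 / 100000) * (T : ℝ) ^ (43 / 45 : ℝ) * L ^ (-2 : ℝ) := by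
    have h1 : 2 * C ≤ B * (1 / 100000) * (T : ℝ) ^ (43 / 45 : ℝ) := by
      have h2 : 0 ≤ B * (1 / 100000) := by positivity
      nlinarith
    exact mul_le_mul_of_nonneg_right h1 hy.le
  have e3 : B * (u - 1 / 100000) * (T : ℝ) ^ (43 / 45 : ℝ) * L ^ (-2 : ℝ) =
      Er B u T L - B * (1 / 100000) * (T : ℝ) ^ (43 / 45 : ℝ) * L ^ (-2 : ℝ) := by
    unfold Er
    ring
  rw [e3] at p2
  linarith

theorem lowG {θ : ℝ} {v : ℕ → ℝ} (hPar : Par θ v) : ∃ B : ℝ, 0 ≤ B ∧
    ∀ (T A Q : ℕ) (L R : ℝ), Q % 2 = 1 → Q % 3 ≠ 0 → 0 < L → 0 ≤ R →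
    (T : ℝ) * F (A % 6) L R - B * (T : ℝ) ^ (43 / 45 : ℝ) * L ^ (-2 : ℝ) ≤ NL A Q L R T := by
  obtain ⟨C, hC, hFC⟩ := Pool.H75.EV.F_le_pow hPar
  have t2 := two_pow_le
  have t3 := three_pow_le
  set B : ℝ := 200000 * C with hBdef
  have hB0 : 0 ≤ B := by positivity
  have hBη : 2 * C ≤ B * (1 / 100000) := by rw [hBdef]; linarith
  have hF2 : ∀ (r : ℕ) (L R : ℝ), r < 6 → 1 < L → F r L R ≤ C * L ^ (-2 : ℝ) := by
    intro r L R hr hL
    refine (hFC r L R hr (by linarith)).trans ?_
    exact mul_le_mul_of_nonneg_left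
      (Real.rpow_le_rpow_of_exponent_le hL.le (by linarith [hPar.hθ1])) hC.le
  have u0 : (2 : ℝ) ^ ((2 / 45 : ℝ) - 2) * (uN 0 + uN 3) / 2 + 1 / 100000 ≤ uN 0 := by
    simp only [uN]
    nlinarith
  have u2 : (2 : ℝ) ^ ((2 / 45 : ℝ) - 2) * (uN 1 + uN 4) / 2 + 1 / 100000 ≤ uN 2 := by
    simp only [uN]
    nlinarith
  have u3 : (3 : ℝ) ^ ((2 / 45 : ℝ) - 2) * (uN 1 + uN 3 + uN 5) / 3 + 1 / 100000 ≤ uN 3 := by
    simp only [uN]
    nlinarith
  have u4 : (2 : ℝ) ^ ((2 / 45 : ℝ) - 2) * (uN 2 + uN 5) / 2 + 1 / 100000 ≤ uN 4 := by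
    simp only [uN]
    nlinarith
  have base : ∀ (T A Q : ℕ) (L R : ℝ), 0 < L → (L ≤ 1 ∨ 1 < R) →
      (T : ℝ) * F (A % 6) L R - Er B (uN (A % 6)) T L ≤ NL A Q L R T := by
    intro T A Q L R hL h2
    have hT0 : (0 : ℝ) ≤ T := Nat.cast_nonneg T
    have hE : 0 ≤ Er B (uN (A % 6)) T L := Er_nonneg hB0 (uN_pos _).le hT0 hL.le
    by_cases hR1 : R ≤ 1
    · rcases h2 with h2 | h2
      · rw [NL_all A Q L R h2 hR1 T, F_one h2 hR1]
        linarith
      · exact absurd hR1 (not_le.mpr h2)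
    · rw [F_zero (not_le.1 hR1)]
      have h3 : (0 : ℝ) ≤ (NL A Q L R T : ℝ) := Nat.cast_nonneg _
      linarith
  have main : ∀ (T A Q : ℕ) (L R : ℝ), Q % 2 = 1 → Q % 3 ≠ 0 → 0 < L → 0 ≤ R →
      (T : ℝ) * F (A % 6) L R - Er B (uN (A % 6)) T L ≤ NL A Q L R T := by
    intro T
    induction T using Nat.strong_induction_on with
    | _ T ih =>
      rcases Nat.eq_zero_or_pos T with hT | hT
      · subst hT
        intro A Q L R _ _ _ _
        unfold Er
        rw [Nat.cast_zero, Real.zero_rpow (by norm_num)]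
        simp
      · have key : ∀ (A Q : ℕ) (L R : ℝ), Q % 2 = 1 → Q % 3 ≠ 0 → 1 < L → 0 ≤ R → R ≤ 1 →
            A % 6 ≠ 1 → A % 6 ≠ 5 →
            (T : ℝ) * F (A % 6) L R - Er B (uN (A % 6)) T L ≤ NL A Q L R T := by
          intro A Q L R hQ2 hQ3 hL hR0 hR1 h1 h5
          have hr : A % 6 < 6 := Nat.mod_lt _ (by norm_num)
          have hL0 : 0 < L := by linarith
          have hT2 : T / 2 < T := Nat.div_lt_self hT (by norm_num)
          have hT3 : T / 3 < T := Nat.div_lt_self hT (by norm_num)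
          have hcase : A % 6 = 0 ∨ A % 6 = 2 ∨ A % 6 = 3 ∨ A % 6 = 4 := by omega
          have ev : A % 2 = 0 → ∀ i j : ℕ, ((A / 2) % 6 = i ∧ (A / 2 + 3 * Q) % 6 = j ∨
              (A / 2) % 6 = j ∧ (A / 2 + 3 * Q) % 6 = i) →
              F (A % 6) L R = (F i (2 * L) (2 * R) + F j (2 * L) (2 * R)) / 2 →
              (2 : ℝ) ^ ((2 / 45 : ℝ) - 2) * (uN i + uN j) / 2 + 1 / 100000 ≤ uN (A % 6) →
              (T : ℝ) * F (A % 6) L R - Er B (uN (A % 6)) T L ≤ NL A Q L R T := by
            intro hA2 i j hij hF hu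
            have hn := NL_even A Q L R hR1 T hA2
            have hnr : (NL (A / 2) Q (2 * L) (2 * R) (T / 2) : ℝ) +
                (NL (A / 2 + 3 * Q) Q (2 * L) (2 * R) (T / 2) : ℝ) ≤ (NL A Q L R T : ℝ) := by
              exact_mod_cast hn
            have i1 := ih (T / 2) hT2 (A / 2) Q (2 * L) (2 * R) hQ2 hQ3 (by linarith) (by linarith)
            have i2 := ih (T / 2) hT2 (A / 2 + 3 * Q) Q (2 * L) (2 * R) hQ2 hQ3 (by linarith)
              (by linarith)
            have hst := stepG hC.le hB0 hBη (k := 2) (T := T) (L := L) (f := F (A % 6) L R)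
              (u := uN (A % 6))
              (S := F i (2 * L) (2 * R) + F j (2 * L) (2 * R)) (US := uN i + uN j) (Or.inl rfl) hT
              hL.le (F_nonneg _ _ _) (hF2 _ _ _ hr hL)
              (add_nonneg (uN_pos i).le (uN_pos j).le) (by push_cast; rw [hF]; ring)
              (by push_cast; exact hu)
            push_cast at hst
            rw [Er_add] at hst
            rcases hij with ⟨e1, e2⟩ | ⟨e1, e2⟩
            · rw [e1] at i1
              rw [e2] at i2
              linarith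
            · rw [e1] at i1
              rw [e2] at i2
              linarith
          rcases hcase with h | h | h | h
          · refine ev (by omega) 0 3 (by omega) ?_ ?_
            · rw [F_step hL hR1, h]
              unfold Op
              rw [if_pos rfl]
            · rw [h]
              exact u0
          · refine ev (by omega) 1 4 (by omega) ?_ ?_
            · rw [F_step hL hR1, h]
              unfold Op
              rw [if_neg (by norm_num), if_neg (by norm_num), if_pos rfl]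
            · rw [h]
              exact u2
          · have hn := NL_three A Q L R hR1 T h
            have hnr : (NL (A / 3) Q (3 * L) (3 * R) (T / 3) : ℝ) +
                (NL (A / 3 + 2 * Q) Q (3 * L) (3 * R) (T / 3) : ℝ) +
                (NL (A / 3 + 4 * Q) Q (3 * L) (3 * R) (T / 3) : ℝ) ≤ (NL A Q L R T : ℝ) := by
              exact_mod_cast hn
            have i1 := ih (T / 3) hT3 (A / 3) Q (3 * L) (3 * R) hQ2 hQ3 (by linarith) (by linarith)
            have i2 := ih (T / 3) hT3 (A / 3 + 2 * Q) Q (3 * L) (3 * R) hQ2 hQ3 (by linarith)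
              (by linarith)
            have i3 := ih (T / 3) hT3 (A / 3 + 4 * Q) Q (3 * L) (3 * R) hQ2 hQ3 (by linarith)
              (by linarith)
            have hF : F (A % 6) L R =
                (F 1 (3 * L) (3 * R) + F 3 (3 * L) (3 * R) + F 5 (3 * L) (3 * R)) / 3 := by
              rw [F_step hL hR1, h]
              unfold Op
              rw [if_neg (by norm_num), if_neg (by norm_num), if_neg (by norm_num), if_pos rfl]
            have hst := stepG hC.le hB0 hBη (k := 3) (T := T) (L := L) (f := F (A % 6) L R)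
              (u := uN (A % 6))
              (S := F 1 (3 * L) (3 * R) + F 3 (3 * L) (3 * R) + F 5 (3 * L) (3 * R))
              (US := uN 1 + uN 3 + uN 5) (Or.inr rfl) hT
              hL.le (F_nonneg _ _ _) (hF2 _ _ _ hr hL)
              (add_nonneg (add_nonneg (uN_pos 1).le (uN_pos 3).le) (uN_pos 5).le)
              (by push_cast; rw [hF]; ring)
              (by
                rw [h]
                push_cast
                exact u3)
            push_cast at hst
            rw [Er_add, Er_add] at hst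
            have hc := three_cases A Q h hQ2 hQ3
            rcases hc with ⟨e1, e2, e3⟩ | ⟨e1, e2, e3⟩ | ⟨e1, e2, e3⟩ | ⟨e1, e2, e3⟩ |
              ⟨e1, e2, e3⟩ | ⟨e1, e2, e3⟩ <;>
            · rw [e1] at i1
              rw [e2] at i2
              rw [e3] at i3
              linarith
          · refine ev (by omega) 2 5 (by omega) ?_ ?_
            · rw [F_step hL hR1, h]
              unfold Op
              rw [if_neg (by norm_num), if_neg (by norm_num), if_neg (by norm_num),
                if_neg (by norm_num), if_pos rfl]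
            · rw [h]
              exact u4
        intro A Q L R hQ2 hQ3 hL hR
        by_cases hb : L ≤ 1 ∨ 1 < R
        · exact base T A Q L R hL hb
        · push Not at hb
          obtain ⟨hL1, hR1⟩ := hb
          have low : ∀ (A' Q' : ℕ) (L' R' : ℝ), Q' % 2 = 1 → Q' % 3 ≠ 0 → 0 < L' → 0 ≤ R' →
              A' % 6 ≠ 1 → A' % 6 ≠ 5 →
              (T : ℝ) * F (A' % 6) L' R' - Er B (uN (A' % 6)) T L' ≤
                NL A' Q' L' R' T := by
            intro A' Q' L' R' g1 g2 gL gR g4 g5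
            by_cases g6 : L' ≤ 1 ∨ 1 < R'
            · exact base T A' Q' L' R' gL g6
            · push Not at g6
              exact key A' Q' L' R' g1 g2 g6.1 gR g6.2 g4 g5
          have conv : ∀ r' : ℕ, ∀ f : ℝ, 25 * uN r' ≤ uN (A % 6) →
              (T : ℝ) * f - Er B (uN (A % 6)) T L ≤ (T : ℝ) * f - Er B (uN r') T (L / 5) := by
            intro r' f h
            have e0 : (L / 5) ^ (-2 : ℝ) = 25 * L ^ (-2 : ℝ) := by
              rw [Real.div_rpow hL.le (by norm_num), Real.rpow_neg (by norm_num : (0 : ℝ) ≤ 5)]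
              norm_num
              ring
            have h2 : Er B (uN r') T (L / 5) ≤ Er B (uN (A % 6)) T L := by
              unfold Er
              rw [e0]
              have h3 : 0 ≤ B * (T : ℝ) ^ (43 / 45 : ℝ) * L ^ (-2 : ℝ) := by positivity
              have h4 := mul_le_mul_of_nonneg_left h h3
              linarith
            linarith
          by_cases h1 : A % 6 = 1
          · have hn := NL_five A Q L R hL.le hR hR1 T (Or.inl h1)
            have hnr : (NL (5 * A + 1) (5 * Q) (L / 5) (R / 5) T : ℝ) ≤ (NL A Q L R T : ℝ) := by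
              exact_mod_cast hn
            have e : (5 * A + 1) % 6 = 0 := by omega
            have i1 := low (5 * A + 1) (5 * Q) (L / 5) (R / 5) (by omega) (by omega)
              (by linarith) (by linarith) (by omega) (by omega)
            rw [e] at i1
            have hF : F (A % 6) L R = F 0 (L / 5) (R / 5) := by
              rw [F_step hL1 hR1, h1]
              unfold Op
              rw [if_neg (by norm_num), if_pos rfl]
            rw [hF]
            exact ((conv 0 _ (by rw [h1]; simp only [uN]; norm_num)).trans i1).trans hnr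
          · by_cases h5 : A % 6 = 5
            · have hn := NL_five A Q L R hL.le hR hR1 T (Or.inr h5)
              have hnr : (NL (5 * A + 1) (5 * Q) (L / 5) (R / 5) T : ℝ) ≤ (NL A Q L R T : ℝ) := by
                exact_mod_cast hn
              have e : (5 * A + 1) % 6 = 2 := by omega
              have i1 := low (5 * A + 1) (5 * Q) (L / 5) (R / 5) (by omega) (by omega)
                (by linarith) (by linarith) (by omega) (by omega)
              rw [e] at i1
              have hF : F (A % 6) L R = F 2 (L / 5) (R / 5) := by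
                rw [F_step hL1 hR1, h5]
                unfold Op
                rw [if_neg (by norm_num), if_neg (by norm_num), if_neg (by norm_num),
                  if_neg (by norm_num), if_neg (by norm_num)]
              rw [hF]
              exact ((conv 2 _ (by rw [h5]; simp only [uN]; norm_num)).trans i1).trans hnr
            · exact key A Q L R hQ2 hQ3 hL1 hR hR1 h1 h5
  refine ⟨22 * B, by positivity, fun T A Q L R hQ2 hQ3 hL hR =>
    le_trans ?_ (main T A Q L R hQ2 hQ3 hL hR)⟩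
  have hu : uN (A % 6) ≤ 22 := by
    have hr : A % 6 < 6 := Nat.mod_lt _ (by norm_num)
    interval_cases A % 6 <;> simp only [uN] <;> norm_num
  have h1 : Er B (uN (A % 6)) T L ≤ 22 * B * (T : ℝ) ^ (43 / 45 : ℝ) * L ^ (-2 : ℝ) := by
    unfold Er
    have h3 : 0 ≤ B * (T : ℝ) ^ (43 / 45 : ℝ) * L ^ (-2 : ℝ) := by positivity
    have h4 := mul_le_mul_of_nonneg_left hu h3
    linarith
  linarith

end Pool.Agent.H12.EW
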