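import Pool.Agent.H12.EW.DeepS
import Pool.Agent.H12.EW.LowG

/-!
The lower bound with the constant of the model for `ρ ≤ 1.17` and every `β < 1`.
-/

namespace Pool.Agent.H12.EW

open Filter Finset Pool.Agent.H12.EU Pool.Agent.H83.EX Pool.Agent.H12.EV

lemma intLowG {θ : ℝ} {v κ : ℕ → ℝ} (hPar : Par θ v)
    (hc : ∀ r : ℕ, r < 6 → Tendsto (fun L : ℝ => F r L 0 * L ^ θ) atTop (nhds (κ r)))
    {η ε : ℝ} (hη : 0 < η) (hε : 0 < ε) (hε1 : ε < 1) (hκη : 0 ≤ mean κ - η) :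
    ∃ L0 R0 D : ℝ, 1 ≤ L0 ∧ 0 < R0 ∧ R0 ≤ 1 ∧ 0 ≤ D ∧ ∀ M L R : ℝ, 1 ≤ M → L0 ≤ L → 0 < R →
      R ≤ R0 → ∀ P : ℕ → Prop,
      (∀ n : ℕ, (1 - ε) * M < n → (n : ℝ) ≤ M → BigR L R n → P n) →
      (cnt P ((1 - ε) * M) : ℝ) + (mean κ - η) * ε * M * L ^ (-θ) -
        D * (M ^ (43 / 45 : ℝ) * L ^ (-2 : ℝ)) ≤ cnt P M := by
  classical
  obtain ⟨B, hB0, hB⟩ := lowG hPar
  obtain ⟨L0, R0, hL01, hR0, hR01, hlow⟩ := sum_low0 hPar hc hη
  refine ⟨L0, R0, 6 * B + 6 * (mean κ - η), hL01, hR0, hR01, by positivity, ?_⟩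
  intro M L R hM hL hR hRR0 P hP
  have hR1 : R ≤ 1 := hRR0.trans hR01
  have hM0 : 0 < M := by linarith
  have hL1 : 1 ≤ L := hL01.trans hL
  have hθ : 0 < θ := by linarith [hPar.hθ1]
  have hLp : 0 < L ^ (-θ) := Real.rpow_pos_of_pos (by linarith) _
  have hLp1 : L ^ (-θ) ≤ 1 := Real.rpow_le_one_of_one_le_of_nonpos hL1 (by linarith)
  have ha0 : 0 ≤ (1 - ε) * M := mul_nonneg (by linarith) hM0.le
  have hab : (1 - ε) * M ≤ M := by nlinarith
  have hs := cnt_split P hab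
  set u := ⌊(1 - ε) * M⌋₊ with hu
  set w := ⌊M⌋₊ with hw
  have huw : u ≤ w := Nat.floor_le_floor hab
  have hl := le_card_IocR P L R u w (by
    intro n h1 h2 h3
    refine hP n ((Nat.floor_lt ha0).mp h1) ?_ h3
    exact (Nat.le_floor_iff hM0.le).mp h2)
  set T : ℕ := (w - u) / 6 with hT
  have hsum : ∑ j ∈ range 6, ((T : ℝ) * F ((u + 1 + j) % 6) L R -
      B * (T : ℝ) ^ (43 / 45 : ℝ) * L ^ (-2 : ℝ)) ≤ ∑ j ∈ range 6, (NL (u + 1 + j) 1 L R T : ℝ) :=
    Finset.sum_le_sum (fun j _ => hB T (u + 1 + j) 1 L R (by norm_num) (by norm_num)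
      (by linarith) hR.le)
  have hsum2 : ∑ j ∈ range 6, ((T : ℝ) * F ((u + 1 + j) % 6) L R -
      B * (T : ℝ) ^ (43 / 45 : ℝ) * L ^ (-2 : ℝ)) =
      T * (∑ r ∈ range 6, F r L R) - 6 * (B * (T : ℝ) ^ (43 / 45 : ℝ) * L ^ (-2 : ℝ)) := by
    rw [Finset.sum_sub_distrib, ← Finset.mul_sum, sum_mod (fun r => F r L R) (u + 1)]
    simp
  have hF := hlow L R hL hR hRR0
  have hT2 : ε * M / 6 - 1 ≤ (T : ℝ) := by
    have h1 : w - u ≤ T * 6 + 5 := by omega
    have h2 : ((w - u : ℕ) : ℝ) ≤ ((T * 6 + 5 : ℕ) : ℝ) := by exact_mod_cast h1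
    rw [Nat.cast_sub huw] at h2
    push_cast at h2
    have h3 : M < w + 1 := Nat.lt_floor_add_one _
    have h4 : (u : ℝ) ≤ (1 - ε) * M := Nat.floor_le ha0
    linarith
  have hT0 : (0 : ℝ) ≤ T := Nat.cast_nonneg T
  have hTM : (T : ℝ) ≤ M := by
    have h1 : T ≤ w := by omega
    have h2 : (T : ℝ) ≤ (w : ℝ) := by exact_mod_cast h1
    exact h2.trans (Nat.floor_le hM0.le)
  have hTp : (T : ℝ) ^ (43 / 45 : ℝ) ≤ M ^ (43 / 45 : ℝ) := Real.rpow_le_rpow hT0 hTM (by norm_num)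
  have hM1 : 1 ≤ M ^ (43 / 45 : ℝ) := Real.one_le_rpow hM (by norm_num)
  have hcast : ∑ j ∈ range 6, (NL (u + 1 + j) 1 L R T : ℝ) ≤
      (((Ioc u w).filter P).card : ℝ) := by exact_mod_cast hl
  have hsr : (cnt P M : ℝ) = (cnt P ((1 - ε) * M) : ℝ) + (((Ioc u w).filter P).card : ℝ) := by
    exact_mod_cast hs
  rw [hsr]
  set X := 6 * ((mean κ - η) * L ^ (-θ)) with hX
  have hX0 : 0 ≤ X := by positivity
  have hX6 : X ≤ 6 * (mean κ - η) := by
    rw [hX]
    nlinarith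
  have hTX : (ε * M / 6 - 1) * X ≤ T * (∑ r ∈ range 6, F r L R) := by
    have h1 := mul_le_mul_of_nonneg_right hT2 hX0
    have h2 := mul_le_mul_of_nonneg_left hF hT0
    linarith
  have hLm : 0 < L ^ (-2 : ℝ) := Real.rpow_pos_of_pos (by linarith) _
  have hLθ : L ^ (-θ) ≤ L ^ (-2 : ℝ) :=
    Real.rpow_le_rpow_of_exponent_le hL1 (by linarith [hPar.hθ1])
  have hBT : B * (T : ℝ) ^ (43 / 45 : ℝ) * L ^ (-2 : ℝ) ≤
      B * (M ^ (43 / 45 : ℝ) * L ^ (-2 : ℝ)) := by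
    rw [mul_assoc]
    exact mul_le_mul_of_nonneg_left (mul_le_mul_of_nonneg_right hTp hLm.le) hB0
  have hXM : X ≤ 6 * (mean κ - η) * (M ^ (43 / 45 : ℝ) * L ^ (-2 : ℝ)) := by
    have h1 : L ^ (-θ) ≤ M ^ (43 / 45 : ℝ) * L ^ (-2 : ℝ) := by nlinarith
    have h2 := mul_le_mul_of_nonneg_left h1 hκη
    rw [hX]
    linarith
  have e1 : (ε * M / 6 - 1) * X = (mean κ - η) * ε * M * L ^ (-θ) - X := by
    rw [hX]
    ring
  rw [e1] at hTX
  rw [hsum2] at hsum
  have e2 : (6 * B + 6 * (mean κ - η)) * (M ^ (43 / 45 : ℝ) * L ^ (-2 : ℝ)) =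
      6 * (B * (M ^ (43 / 45 : ℝ) * L ^ (-2 : ℝ))) +
        6 * (mean κ - η) * (M ^ (43 / 45 : ℝ) * L ^ (-2 : ℝ)) := by
    ring
  rw [e2]
  linarith

lemma deep_lowG {θ : ℝ} {v κ : ℕ → ℝ} (hPar : Par θ v) (hκ : 0 < mean κ)
    (hc : ∀ r : ℕ, r < 6 → Tendsto (fun L : ℝ => F r L 0 * L ^ θ) atTop (nhds (κ r)))
    (hθ : θ < 52 / 23) {ρ β : ℝ} (hρ1 : 1 < ρ) (hβ1 : β < 1) (hρ2 : ρ ≤ 117 / 100)
    {η : ℝ} (hη : 0 < η) :
    ∀ᶠ N : ℕ in atTop,
      (mean κ / (1 - θ * (ρ - 1)) - η) * (N : ℝ) ^ (1 - θ * (ρ - 1)) ≤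
        (cnt (fun n => ExceedsB β ρ n) (N : ℝ) : ℝ) := by
  have hθ0 : 0 < θ := by linarith [hPar.hθ1]
  set γ : ℝ := ρ - 1 with hγ
  have hγ0 : 0 < γ := by linarith
  set a : ℝ := 1 - θ * γ with ha
  set b : ℝ := 43 / 45 - 2 * γ with hb
  have hθγ0 : 0 < θ * γ := mul_pos hθ0 hγ0
  have hγ1 : γ ≤ 17 / 100 := by rw [hγ]; linarith
  have hθγ : θ * γ ≤ 52 / 23 * (17 / 100) :=
    mul_le_mul hθ.le hγ1 hγ0.le (by norm_num)
  have hθ2 : (θ - 2) * γ ≤ (52 / 23 - 2) * (17 / 100) :=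
    mul_le_mul (by linarith) hγ1 hγ0.le (by norm_num)
  have hab : b < a := by
    rw [ha, hb]
    have h1 : ((52 : ℝ) / 23 - 2) * (17 / 100) < 2 / 45 := by norm_num
    nlinarith
  have hb0 : 0 < b := by
    rw [hb]
    linarith
  have ha0 : 0 < a := by linarith
  have ha1 : a ≤ 1 := by rw [ha]; linarith
  have ha2 : 1 / 2 ≤ a := by
    rw [ha]
    have h1 : ((52 : ℝ) / 23) * (17 / 100) < 1 / 2 := by norm_num
    linarith
  set η' : ℝ := min η (mean κ) / 8 with hη'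
  have hη'0 : 0 < η' := by positivity
  have hη'1 : 8 * η' ≤ η := by rw [hη']; linarith [min_le_left η (mean κ)]
  have hη'2 : 8 * η' ≤ mean κ := by rw [hη']; linarith [min_le_right η (mean κ)]
  obtain ⟨δ, hδ, hδ'⟩ := near_one (-θ) (s := η' / mean κ) (by positivity)
  set ε : ℝ := min δ (1 / 2) with hε
  have hε0 : 0 < ε := lt_min hδ (by norm_num)
  have hε2 : ε ≤ 1 / 2 := min_le_right _ _
  obtain ⟨L0, R0, D, hL0, hR0, hR01, hD, hrec⟩ :=
    intLowG hPar hc hη'0 hε0 (by linarith) (by linarith)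
  have h1ε : 0 < 1 - ε := by linarith
  have hfac := (hδ' ε hε0 (min_le_left _ _)).2.2
  have tg : Tendsto (fun M : ℝ => (1 + ε) * M ^ γ) atTop atTop :=
    (tendsto_rpow_atTop hγ0).const_mul_atTop (by linarith)
  obtain ⟨M2, hM2⟩ := Filter.eventually_atTop.mp (tg.eventually_ge_atTop L0)
  have tR : Tendsto (fun M : ℝ => ((1 - ε) * M) ^ (-(1 - β))) atTop (nhds 0) :=
    (tendsto_rpow_neg_atTop (by linarith)).comp (tendsto_id.const_mul_atTop h1ε)
  obtain ⟨M3, hM3⟩ := Filter.eventually_atTop.mp (tR.eventually (gt_mem_nhds hR0))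
  set M1 : ℝ := max (max 1 M2) M3 with hM1
  have hM1ge : 1 ≤ M1 := (le_max_left _ _).trans (le_max_left _ _)
  have hqa : (1 - ε) ^ a < 1 := Real.rpow_lt_one h1ε.le (by linarith) ha0
  have hqb : (1 - ε) ^ b < 1 := Real.rpow_lt_one h1ε.le (by linarith) hb0
  have hpε : 0 < (1 + ε) ^ (-θ) := Real.rpow_pos_of_pos (by linarith) _
  set A : ℝ := (mean κ - η') * ε * (1 + ε) ^ (-θ) with hA
  have hA0 : 0 ≤ A := by
    have : 0 ≤ mean κ - η' := by linarith
    positivity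
  have hAa : mean κ / a - 4 * η' ≤ A / (1 - (1 - ε) ^ a) := by
    have hb := bern_up hε0 (by linarith) ha0 ha1
    have h1 : A / (a * ε / (1 - ε)) ≤ A / (1 - (1 - ε) ^ a) :=
      div_le_div_of_nonneg_left hA0 (by linarith) hb
    have h2 : A / (a * ε / (1 - ε)) = (mean κ - η') * ((1 + ε) ^ (-θ) * (1 - ε)) / a := by
      rw [hA]
      field_simp
    have h3 : mean κ - 2 * η' ≤ (mean κ - η') * ((1 + ε) ^ (-θ) * (1 - ε)) := by
      have h4 : (mean κ - η') * (1 - η' / mean κ) ≤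
          (mean κ - η') * ((1 + ε) ^ (-θ) * (1 - ε)) :=
        mul_le_mul_of_nonneg_left hfac (by linarith)
      have h5 : mean κ - 2 * η' ≤ (mean κ - η') * (1 - η' / mean κ) := by
        have e : (mean κ - η') * (1 - η' / mean κ) = mean κ - 2 * η' + η' ^ 2 / mean κ := by
          field_simp
          ring
        rw [e]
        have : 0 ≤ η' ^ 2 / mean κ := by positivity
        linarith
      linarith
    have h6 : (mean κ - 2 * η') / a ≤ (mean κ - η') * ((1 + ε) ^ (-θ) * (1 - ε)) / a :=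
      div_le_div_of_nonneg_right h3 ha0.le
    have h7 : mean κ / a - 4 * η' ≤ (mean κ - 2 * η') / a := by
      have e : (mean κ - 2 * η') / a = mean κ / a - 2 * η' / a := by
        field_simp
      rw [e]
      have : 2 * η' / a ≤ 4 * η' := by
        rw [div_le_iff₀ ha0]
        nlinarith
      linarith
    rw [h2] at h1
    linarith
  have hev := small_err2 (A / (1 - (1 - ε) ^ a) * M1 ^ a) (D / (1 - (1 - ε) ^ b))
    hb0 hab hη'0
  filter_upwards [hev, eventually_ge_atTop 1] with N h1 h2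
  have hN0 : (0 : ℝ) < N := by exact_mod_cast h2
  have key := rec_low (f := fun M => (cnt (fun n => ExceedsB β ρ n) M : ℝ)) (q := 1 - ε)
    (A := A) (D := D) (a := a) (b := b) (M1 := M1)
    h1ε (by linarith) ha0 hb0 hA0 hD (by linarith)
    (fun M _ => Nat.cast_nonneg _)
    (by
      intro M hM
      have hMM0 : 1 ≤ M := ((le_max_left _ _).trans (le_max_left _ _)).trans hM
      have hMM2 : M2 ≤ M := ((le_max_right _ _).trans (le_max_left _ _)).trans hM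
      have hMM3 : M3 ≤ M := (le_max_right _ _).trans hM
      have hMpos : 0 < M := by linarith
      set q : ℝ := (1 - ε) * M with hq
      have hq0 : 0 < q := by positivity
      have hr := hrec M ((1 + ε) * M ^ γ) (q ^ (-(1 - β))) hMM0 (hM2 M hMM2)
        (Real.rpow_pos_of_pos hq0 _) (hM3 M hMM3).le
        (fun n => ExceedsB β ρ n) (by
        intro n h1 h2 h3
        obtain ⟨i, hi, hj⟩ := h3
        have hn0 : (0 : ℝ) < n := lt_of_le_of_lt (by positivity) h1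
        refine ⟨i, ?_, ?_⟩
        · have e1 : (n : ℝ) ^ ρ = (n : ℝ) ^ γ * n := by
            rw [← Real.rpow_add_one hn0.ne']
            congr 1
            rw [hγ]
            ring
          have e2 : (n : ℝ) ^ γ ≤ M ^ γ := Real.rpow_le_rpow hn0.le h2 hγ0.le
          have hMγ : 0 < M ^ γ := Real.rpow_pos_of_pos hMpos _
          have e3 : (n : ℝ) ^ γ * n ≤ M ^ γ * n := mul_le_mul_of_nonneg_right e2 hn0.le
          have e4 : M ^ γ * n < (1 + ε) * M ^ γ * n := by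
            have : 0 < ε * M ^ γ * n := by positivity
            nlinarith
          rw [e1]
          linarith
        · intro j hji
          refine le_trans ?_ (hj j hji)
          have e1 : (n : ℝ) ^ β = (n : ℝ) ^ (-(1 - β)) * n := by
            rw [← Real.rpow_add_one hn0.ne']
            congr 1
            ring
          rw [e1]
          exact mul_le_mul_of_nonneg_right
            (Real.rpow_le_rpow_of_nonpos hq0 h1.le (by linarith)) hn0.le)
      beta_reduce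
      have hMγ : 0 < M ^ γ := Real.rpow_pos_of_pos hMpos _
      have e2 : ((1 + ε) * M ^ γ) ^ (-θ) = (1 + ε) ^ (-θ) * M ^ (-(γ * θ)) := by
        rw [Real.mul_rpow (by linarith) hMγ.le, ← Real.rpow_mul hMpos.le]
        congr 2
        ring
      have e3 : M * M ^ (-(γ * θ)) = M ^ a := by
        have : a = 1 + -(γ * θ) := by rw [ha]; ring
        rw [this, Real.rpow_add hMpos, Real.rpow_one]
      rw [e2] at hr
      have e4 : (mean κ - η') * ε * M * ((1 + ε) ^ (-θ) * M ^ (-(γ * θ))) = A * M ^ a := by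
        rw [hA, ← e3]
        ring
      rw [e4] at hr
      have h5 : D * (M ^ (43 / 45 : ℝ) * ((1 + ε) * M ^ γ) ^ (-2 : ℝ)) ≤ D * M ^ b := by
        refine mul_le_mul_of_nonneg_left ?_ hD
        have h6 : ((1 + ε) * M ^ γ) ^ (-2 : ℝ) ≤ (M ^ γ) ^ (-2 : ℝ) :=
          Real.rpow_le_rpow_of_nonpos hMγ (by nlinarith) (by norm_num)
        have e6 : (M ^ γ) ^ (-2 : ℝ) = M ^ (-(2 * γ)) := by
          rw [← Real.rpow_mul hMpos.le]
          congr 1
          ring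
        have e7 : M ^ b = M ^ (43 / 45 : ℝ) * M ^ (-(2 * γ)) := by
          rw [← Real.rpow_add hMpos, hb]
          congr 1
        rw [e7, ← e6]
        exact mul_le_mul_of_nonneg_left h6 (Real.rpow_nonneg hMpos.le _)
      linarith)
    N hN0
  beta_reduce at key
  have hp : 0 < (N : ℝ) ^ a := Real.rpow_pos_of_pos hN0 _
  have h3 := mul_le_mul_of_nonneg_right hAa hp.le
  have h4 : (mean κ / a - η) * (N : ℝ) ^ a ≤ (mean κ / a - 5 * η') * (N : ℝ) ^ a :=
    mul_le_mul_of_nonneg_right (by linarith) hp.le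
  have e9 : (mean κ / a - 5 * η') * (N : ℝ) ^ a = (mean κ / a - 4 * η') * (N : ℝ) ^ a -
      η' * (N : ℝ) ^ a := by ring
  rw [e9] at h4
  linarith

end Pool.Agent.H12.EW
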