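import Pool.Agent.H12.EW.Deep

/-!
The number of `n ≤ N` whose trajectory exceeds `n ^ ρ` before it falls below `n ^ β`.
-/

namespace Pool.Agent.H12.EW

open Filter Finset Pool.Agent.H12.EU Pool.Agent.H83.EX Pool.Agent.H12.EV

/-- The trajectory of `n` exceeds `n ^ ρ` before it falls below `n ^ β`. -/
def ExceedsB (β ρ : ℝ) (n : ℕ) : Prop :=
  ∃ i : ℕ, (n : ℝ) ^ ρ < (C^[i] n : ℝ) ∧ ∀ j : ℕ, j ≤ i → (n : ℝ) ^ β ≤ (C^[j] n : ℝ)

/-- The trajectory of `n` never falls below `n ^ β`. -/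
def StaysB (β : ℝ) (n : ℕ) : Prop := ∀ j : ℕ, (n : ℝ) ^ β ≤ (C^[j] n : ℝ)

lemma small_err2 (C D : ℝ) {b0 b s : ℝ} (hb0 : 0 < b0) (hb : b0 < b) (hs : 0 < s) :
    ∀ᶠ N : ℕ in atTop, C + D * (N : ℝ) ^ b0 ≤ s * (N : ℝ) ^ b := by
  have t1 : Tendsto (fun N : ℕ => (N : ℝ) ^ (-b)) atTop (nhds 0) :=
    (tendsto_rpow_neg_atTop (by linarith)).comp tendsto_natCast_atTop_atTop
  have t2 : Tendsto (fun N : ℕ => (N : ℝ) ^ (-(b - b0))) atTop (nhds 0) :=
    (tendsto_rpow_neg_atTop (by linarith)).comp tendsto_natCast_atTop_atTop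
  have t3 : Tendsto (fun N : ℕ => C * (N : ℝ) ^ (-b) + D * (N : ℝ) ^ (-(b - b0))) atTop
      (nhds (C * 0 + D * 0)) := (t1.const_mul C).add (t2.const_mul D)
  rw [mul_zero, mul_zero, add_zero] at t3
  filter_upwards [t3.eventually (gt_mem_nhds hs), eventually_ge_atTop 1] with N h1 h2
  have hN0 : (0 : ℝ) < N := by exact_mod_cast h2
  have hp : 0 < (N : ℝ) ^ b := Real.rpow_pos_of_pos hN0 _
  have e1 : (N : ℝ) ^ (-b) * (N : ℝ) ^ b = 1 := by
    rw [← Real.rpow_add hN0]
    simp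
  have e2 : (N : ℝ) ^ (-(b - b0)) * (N : ℝ) ^ b = (N : ℝ) ^ b0 := by
    rw [← Real.rpow_add hN0]
    congr 1
    ring
  have h3 := mul_le_mul_of_nonneg_right h1.le hp.le
  have e3 : (C * (N : ℝ) ^ (-b) + D * (N : ℝ) ^ (-(b - b0))) * (N : ℝ) ^ b =
      C * ((N : ℝ) ^ (-b) * (N : ℝ) ^ b) + D * ((N : ℝ) ^ (-(b - b0)) * (N : ℝ) ^ b) := by ring
  rw [e3, e1, e2, mul_one] at h3
  exact h3

lemma deep_up {θ : ℝ} {κ : ℕ → ℝ} (hθ0 : 0 < θ) (hκ : 0 ≤ mean κ)
    (hc : ∀ r : ℕ, r < 6 → Tendsto (fun L : ℝ => F r L 0 * L ^ θ) atTop (nhds (κ r)))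
    {ρ β : ℝ} (hρ1 : 1 < ρ) (hβ1 : β < 1) (hρβ : θ * (ρ - 1) + (1 - β) < 7 / 50)
    {η : ℝ} (hη : 0 < η) :
    ∀ᶠ N : ℕ in atTop, (cnt (fun n => ExceedsB β ρ n ∨ StaysB β n) (N : ℝ) : ℝ) ≤
      (mean κ / (1 - θ * (ρ - 1)) + η) * (N : ℝ) ^ (1 - θ * (ρ - 1)) := by
  set γ : ℝ := ρ - 1 with hγ
  have hγ0 : 0 < γ := by linarith
  set a : ℝ := 1 - θ * γ with ha
  set b : ℝ := 43 / 50 + (1 - β) with hb
  have hθγ0 : 0 < θ * γ := mul_pos hθ0 hγ0
  have hab : b < a := by
    rw [ha, hb]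
    linarith
  have hb0 : 0 < b := by
    rw [hb]
    linarith
  have ha0 : 0 < a := by linarith
  have ha1 : a ≤ 1 := by rw [ha]; linarith
  have hβ0 : 1 / 2 ≤ β := by linarith
  -- the small parameters
  obtain ⟨ε₁, hε₁, hε₁4, hup⟩ := intUp0 hθ0 hκ hc (show 0 < η / 4 by linarith)
  obtain ⟨δ, hδ, hδ'⟩ := near_one (-(ρ * θ)) (s := η / 8 / (mean κ + η / 4 + 1)) (by positivity)
  set ε : ℝ := min ε₁ δ with hε
  have hε0 : 0 < ε := lt_min hε₁ hδ
  have hεδ : ε ≤ δ := min_le_right _ _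
  have hεε : ε ≤ ε₁ := min_le_left _ _
  have hε4 : ε ≤ 1 / 4 := hεε.trans hε₁4
  obtain ⟨M0, L0, D, hM0, hL0, hD, hrec⟩ := hup ε hε0 hεε
  have h1ε : 0 < 1 - ε := by linarith
  have hfac := (hδ' ε hε0 hεδ).1
  have hρε : 0 < (1 - ε) ^ ρ := Real.rpow_pos_of_pos h1ε _
  have tg : Tendsto (fun M : ℝ => (1 - ε) ^ ρ * M ^ γ) atTop atTop :=
    (tendsto_rpow_atTop hγ0).const_mul_atTop hρε
  obtain ⟨M2, hM2⟩ := Filter.eventually_atTop.mp (tg.eventually_ge_atTop L0)
  set M1 : ℝ := max (max M0 M2) 4 with hM1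
  have hM1ge : 4 ≤ M1 := le_max_right _ _
  have hqa : (1 - ε) ^ a < 1 := Real.rpow_lt_one h1ε.le (by linarith) ha0
  have hqb : (1 - ε) ^ b < 1 := Real.rpow_lt_one h1ε.le (by linarith) hb0
  set A : ℝ := (mean κ + η / 4) * ε * (1 - ε) ^ (-(ρ * θ)) with hA
  have hA0 : 0 ≤ A := by
    have := Real.rpow_nonneg h1ε.le (-(ρ * θ))
    positivity
  have hAa : A / (1 - (1 - ε) ^ a) ≤ mean κ / a + η / 2 := by
    have hb := bern_lo hε0 (by linarith) ha0 ha1
    have h1 : A / (1 - (1 - ε) ^ a) ≤ A / (a * ε) :=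
      div_le_div_of_nonneg_left hA0 (by positivity) hb
    have h2 : A / (a * ε) = (mean κ + η / 4) * (1 - ε) ^ (-(ρ * θ)) / a := by
      rw [hA]
      field_simp
    have h3 : (mean κ + η / 4) * (1 - ε) ^ (-(ρ * θ)) ≤ mean κ + η / 4 + η / 8 := by
      have h4 : (mean κ + η / 4) * (1 - ε) ^ (-(ρ * θ)) ≤
          (mean κ + η / 4) * (1 + η / 8 / (mean κ + η / 4 + 1)) :=
        mul_le_mul_of_nonneg_left hfac (by linarith)
      have h5 : (mean κ + η / 4) * (η / 8 / (mean κ + η / 4 + 1)) ≤ η / 8 := by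
        rw [← mul_div_assoc, div_le_iff₀ (by positivity)]
        nlinarith
      nlinarith
    have h6 : (mean κ + η / 4) * (1 - ε) ^ (-(ρ * θ)) / a ≤ (mean κ + η / 4 + η / 8) / a :=
      div_le_div_of_nonneg_right h3 ha0.le
    have h7 : (mean κ + η / 4 + η / 8) / a ≤ mean κ / a + η / 2 := by
      have e : (mean κ + η / 4 + η / 8) / a = mean κ / a + (η / 4 + η / 8) / a := by
        field_simp
        ring
      rw [e]
      have : (η / 4 + η / 8) / a ≤ η / 2 := by
        rw [div_le_iff₀ ha0]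
        nlinarith
      linarith
    rw [h2] at h1
    linarith
  have hev := small_err2 M1 (2 * D / (1 - (1 - ε) ^ b)) hb0 hab (show 0 < η / 2 by linarith)
  filter_upwards [hev, eventually_ge_atTop 1] with N h1 h2
  have hN0 : (0 : ℝ) < N := by exact_mod_cast h2
  have key := rec_up (f := fun M => (cnt (fun n => ExceedsB β ρ n ∨ StaysB β n) M : ℝ))
    (q := 1 - ε) (A := A) (D := 2 * D) (a := a) (b := b) (C := M1) (M1 := M1)
    h1ε (by linarith) ha0 hb0 hA0 (by linarith) (by linarith)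
    (by linarith) (fun M hM hle => (cnt_le _ hM.le).trans hle)
    (by
      intro M hM
      have hMM0 : M0 ≤ M := ((le_max_left _ _).trans (le_max_left _ _)).trans hM
      have hMM2 : M2 ≤ M := ((le_max_right _ _).trans (le_max_left _ _)).trans hM
      have hM4 : 4 ≤ M := (le_max_right _ _).trans hM
      have hMpos : 0 < M := by linarith
      set q : ℝ := (1 - ε) * M with hq
      have hq1 : 1 ≤ q := by
        rw [hq]
        nlinarith
      have hq0 : 0 < q := by linarith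
      have hqM : q ≤ M := by
        rw [hq]
        nlinarith
      have eX : q ^ ρ = (1 - ε) ^ ρ * M ^ γ * M := by
        have e1 : M ^ ρ = M ^ γ * M := by
          rw [← Real.rpow_add_one hMpos.ne']
          congr 1
          rw [hγ]
          ring
        rw [hq, Real.mul_rpow h1ε.le hMpos.le, e1]
        ring
      have hr := hrec M (q ^ ρ) (q ^ β) hMM0
        (Real.rpow_le_rpow_of_exponent_le hq1 hβ0)
        ((Real.rpow_le_rpow_of_exponent_le hq1 hβ1.le).trans (by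
          rw [Real.rpow_one]
          exact hqM))
        (by
          rw [eX]
          exact mul_le_mul_of_nonneg_right (hM2 M hMM2) hMpos.le)
        (fun n => ExceedsB β ρ n ∨ StaysB β n) (by
        intro n h1 h2 h3
        have hbn : q ^ β ≤ (n : ℝ) ^ β := Real.rpow_le_rpow hq0.le h1.le (by linarith)
        rcases h3 with h3 | h3
        · obtain ⟨i, hi, hj⟩ := h3
          refine Or.inl ⟨i, ?_, ?_⟩
          · have : q ^ ρ ≤ (n : ℝ) ^ ρ := Real.rpow_le_rpow hq0.le h1.le (by linarith)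
            linarith
          · intro j hji
            exact hbn.trans (hj j hji)
        · exact Or.inr (fun j => hbn.trans (h3 j)))
      beta_reduce
      have e2 : (q ^ ρ / M) ^ (-θ) = (1 - ε) ^ (-(ρ * θ)) * M ^ (-(γ * θ)) := by
        have e3 : q ^ ρ / M = (1 - ε) ^ ρ * M ^ γ := by
          rw [eX]
          field_simp
        rw [e3, Real.mul_rpow hρε.le (Real.rpow_nonneg hMpos.le _), ← Real.rpow_mul h1ε.le,
          ← Real.rpow_mul hMpos.le]
        congr 2 <;> ring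
      have e3 : M * M ^ (-(γ * θ)) = M ^ a := by
        have : a = 1 + -(γ * θ) := by rw [ha]; ring
        rw [this, Real.rpow_add hMpos, Real.rpow_one]
      have h5 : D * (M / q ^ β) * M ^ (43 / 50 : ℝ) ≤ 2 * D * M ^ b := by
        have h6 : M / q ^ β ≤ 2 * M ^ (1 - β) := by
          rw [div_le_iff₀ (Real.rpow_pos_of_pos hq0 _)]
          have h7 : M ^ (1 - β) * M ^ β = M := by
            rw [← Real.rpow_add hMpos]
            simp
          have h8 : 1 / 2 * M ^ β ≤ q ^ β := by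
            rw [hq, Real.mul_rpow h1ε.le hMpos.le]
            refine mul_le_mul_of_nonneg_right ?_ (Real.rpow_nonneg hMpos.le _)
            have h9 : (1 - ε) ^ (1 : ℝ) ≤ (1 - ε) ^ β :=
              Real.rpow_le_rpow_of_exponent_ge h1ε (by linarith) hβ1.le
            rw [Real.rpow_one] at h9
            linarith
          have h10 : M ^ (1 - β) * (1 / 2 * M ^ β) ≤ M ^ (1 - β) * q ^ β :=
            mul_le_mul_of_nonneg_left h8 (Real.rpow_nonneg hMpos.le _)
          have h11 : M ^ (1 - β) * (1 / 2 * M ^ β) = 1 / 2 * M := by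
            have e : M ^ (1 - β) * (1 / 2 * M ^ β) = 1 / 2 * (M ^ (1 - β) * M ^ β) := by ring
            rw [e, h7]
          linarith
        have e4 : M ^ b = M ^ (1 - β) * M ^ (43 / 50 : ℝ) := by
          rw [← Real.rpow_add hMpos, hb]
          congr 1
          ring
        rw [e4]
        have h12 : D * (M / q ^ β) ≤ D * (2 * M ^ (1 - β)) := mul_le_mul_of_nonneg_left h6 hD
        have h13 := mul_le_mul_of_nonneg_right h12 (Real.rpow_nonneg hMpos.le (43 / 50 : ℝ))
        linarith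
      rw [e2] at hr
      have e5 : (mean κ + η / 4) * ε * M * ((1 - ε) ^ (-(ρ * θ)) * M ^ (-(γ * θ))) =
          A * M ^ a := by
        rw [hA, ← e3]
        ring
      rw [e5] at hr
      linarith)
    N hN0
  beta_reduce at key
  have hp : 0 < (N : ℝ) ^ a := Real.rpow_pos_of_pos hN0 _
  have h3 := mul_le_mul_of_nonneg_right hAa hp.le
  have e9 : (mean κ / a + η) * (N : ℝ) ^ a = (mean κ / a + η / 2) * (N : ℝ) ^ a +
      η / 2 * (N : ℝ) ^ a := by ring
  rw [e9]
  linarith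

lemma deep_low {θ : ℝ} {v κ : ℕ → ℝ} (hPar : Par θ v) (hκ : 0 < mean κ)
    (hc : ∀ r : ℕ, r < 6 → Tendsto (fun L : ℝ => F r L 0 * L ^ θ) atTop (nhds (κ r)))
    {ρ β : ℝ} (hρ1 : 1 < ρ) (hβ1 : β < 1) (hρβ : θ * (ρ - 1) + (1 - β) < 7 / 50)
    {η : ℝ} (hη : 0 < η) :
    ∀ᶠ N : ℕ in atTop,
      (mean κ / (1 - θ * (ρ - 1)) - η) * (N : ℝ) ^ (1 - θ * (ρ - 1)) ≤
        (cnt (fun n => ExceedsB β ρ n) (N : ℝ) : ℝ) := by
  have hθ0 : 0 < θ := by linarith [hPar.hθ1]
  set γ : ℝ := ρ - 1 with hγ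
  have hγ0 : 0 < γ := by linarith
  set a : ℝ := 1 - θ * γ with ha
  set b : ℝ := 43 / 50 + (1 - β) with hb
  have hθγ0 : 0 < θ * γ := mul_pos hθ0 hγ0
  have hab : b < a := by
    rw [ha, hb]
    linarith
  have hb0 : 0 < b := by
    rw [hb]
    linarith
  have ha0 : 0 < a := by linarith
  have ha1 : a ≤ 1 := by rw [ha]; linarith
  have ha2 : 1 / 2 ≤ a := by
    rw [hb] at hab
    linarith
  set η' : ℝ := min η (mean κ) / 8 with hη'
  have hη'0 : 0 < η' := by positivity
  have hη'1 : 8 * η' ≤ η := by rw [hη']; linarith [min_le_left η (mean κ)]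
  have hη'2 : 8 * η' ≤ mean κ := by rw [hη']; linarith [min_le_right η (mean κ)]
  obtain ⟨δ, hδ, hδ'⟩ := near_one (-θ) (s := η' / mean κ) (by positivity)
  set ε : ℝ := min δ (1 / 2) with hε
  have hε0 : 0 < ε := lt_min hδ (by norm_num)
  have hε2 : ε ≤ 1 / 2 := min_le_right _ _
  obtain ⟨L0, R0, D, hL0, hR0, hR01, hD, hrec⟩ :=
    intLow0 hPar hc hη'0 hε0 (by linarith) (by linarith)
  have h1ε : 0 < 1 - ε := by linarith
  have hfac := (hδ' ε hε0 (min_le_left _ _)).2.2
  have tg : Tendsto (fun M : ℝ => (1 + ε) * M ^ γ) atTop atTop :=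
    (tendsto_rpow_atTop hγ0).const_mul_atTop (by linarith)
  obtain ⟨M2, hM2⟩ := Filter.eventually_atTop.mp (tg.eventually_ge_atTop L0)
  have tR : Tendsto (fun M : ℝ => ((1 - ε) * M) ^ (-(1 - β))) atTop (nhds 0) :=
    (tendsto_rpow_neg_atTop (by linarith)).comp (tendsto_id.const_mul_atTop h1ε)
  obtain ⟨M3, hM3⟩ := Filter.eventually_atTop.mp (tR.eventually (gt_mem_nhds hR0))
  set M1 : ℝ := max (max 1 M2) M3 with hM1
  have hM1ge : 1 ≤ M1 := (le_max_left _ _).trans (le_max_left _ _)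
  have hqa : (1 - ε) ^ a < 1 := Real.rpow_lt_one h1ε.le (by linarith) ha0
  have hqb : (1 - ε) ^ b < 1 := Real.rpow_lt_one h1ε.le (by linarith) hb0
  have hpε : 0 < (1 + ε) ^ (-θ) := Real.rpow_pos_of_pos (by linarith) _
  set A : ℝ := (mean κ - η') * ε * (1 + ε) ^ (-θ) with hA
  have hA0 : 0 ≤ A := by
    have : 0 ≤ mean κ - η' := by linarith
    positivity
  have hAa : mean κ / a - 4 * η' ≤ A / (1 - (1 - ε) ^ a) := by
    have hb := bern_up hε0 (by linarith) ha0 ha1
    have h1 : A / (a * ε / (1 - ε)) ≤ A / (1 - (1 - ε) ^ a) :=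
      div_le_div_of_nonneg_left hA0 (by linarith) hb
    have h2 : A / (a * ε / (1 - ε)) = (mean κ - η') * ((1 + ε) ^ (-θ) * (1 - ε)) / a := by
      rw [hA]
      field_simp
    have h3 : mean κ - 2 * η' ≤ (mean κ - η') * ((1 + ε) ^ (-θ) * (1 - ε)) := by
      have h4 : (mean κ - η') * (1 - η' / mean κ) ≤
          (mean κ - η') * ((1 + ε) ^ (-θ) * (1 - ε)) :=
        mul_le_mul_of_nonneg_left hfac (by linarith)
      have h5 : mean κ - 2 * η' ≤ (mean κ - η') * (1 - η' / mean κ) := by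
        have e : (mean κ - η') * (1 - η' / mean κ) = mean κ - 2 * η' + η' ^ 2 / mean κ := by
          field_simp
          ring
        rw [e]
        have : 0 ≤ η' ^ 2 / mean κ := by positivity
        linarith
      linarith
    have h6 : (mean κ - 2 * η') / a ≤ (mean κ - η') * ((1 + ε) ^ (-θ) * (1 - ε)) / a :=
      div_le_div_of_nonneg_right h3 ha0.le
    have h7 : mean κ / a - 4 * η' ≤ (mean κ - 2 * η') / a := by
      have e : (mean κ - 2 * η') / a = mean κ / a - 2 * η' / a := by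
        field_simp
      rw [e]
      have : 2 * η' / a ≤ 4 * η' := by
        rw [div_le_iff₀ ha0]
        nlinarith
      linarith
    rw [h2] at h1
    linarith
  have hev := small_err2 (A / (1 - (1 - ε) ^ a) * M1 ^ a) (D / (1 - (1 - ε) ^ b))
    hb0 hab hη'0
  filter_upwards [hev, eventually_ge_atTop 1] with N h1 h2
  have hN0 : (0 : ℝ) < N := by exact_mod_cast h2
  have key := rec_low (f := fun M => (cnt (fun n => ExceedsB β ρ n) M : ℝ)) (q := 1 - ε)
    (A := A) (D := D) (a := a) (b := b) (M1 := M1)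
    h1ε (by linarith) ha0 hb0 hA0 hD (by linarith)
    (fun M _ => Nat.cast_nonneg _)
    (by
      intro M hM
      have hMM0 : 1 ≤ M := ((le_max_left _ _).trans (le_max_left _ _)).trans hM
      have hMM2 : M2 ≤ M := ((le_max_right _ _).trans (le_max_left _ _)).trans hM
      have hMM3 : M3 ≤ M := (le_max_right _ _).trans hM
      have hMpos : 0 < M := by linarith
      set q : ℝ := (1 - ε) * M with hq
      have hq0 : 0 < q := by positivity
      have hr := hrec M ((1 + ε) * M ^ γ) (q ^ (-(1 - β))) hMM0 (hM2 M hMM2)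
        (Real.rpow_pos_of_pos hq0 _) (hM3 M hMM3).le
        (fun n => ExceedsB β ρ n) (by
        intro n h1 h2 h3
        obtain ⟨i, hi, hj⟩ := h3
        have hn0 : (0 : ℝ) < n := lt_of_le_of_lt (by positivity) h1
        refine ⟨i, ?_, ?_⟩
        · have e1 : (n : ℝ) ^ ρ = (n : ℝ) ^ γ * n := by
            rw [← Real.rpow_add_one hn0.ne']
            congr 1
            rw [hγ]
            ring
          have e2 : (n : ℝ) ^ γ ≤ M ^ γ := Real.rpow_le_rpow hn0.le h2 hγ0.le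
          have hMγ : 0 < M ^ γ := Real.rpow_pos_of_pos hMpos _
          have e3 : (n : ℝ) ^ γ * n ≤ M ^ γ * n := mul_le_mul_of_nonneg_right e2 hn0.le
          have e4 : M ^ γ * n < (1 + ε) * M ^ γ * n := by
            have : 0 < ε * M ^ γ * n := by positivity
            nlinarith
          rw [e1]
          linarith
        · intro j hji
          refine le_trans ?_ (hj j hji)
          have e1 : (n : ℝ) ^ β = (n : ℝ) ^ (-(1 - β)) * n := by
            rw [← Real.rpow_add_one hn0.ne']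
            congr 1
            ring
          rw [e1]
          exact mul_le_mul_of_nonneg_right
            (Real.rpow_le_rpow_of_nonpos hq0 h1.le (by linarith)) hn0.le)
      beta_reduce
      have hMγ : 0 < M ^ γ := Real.rpow_pos_of_pos hMpos _
      have e2 : ((1 + ε) * M ^ γ) ^ (-θ) = (1 + ε) ^ (-θ) * M ^ (-(γ * θ)) := by
        rw [Real.mul_rpow (by linarith) hMγ.le, ← Real.rpow_mul hMpos.le]
        congr 2
        ring
      have e3 : M * M ^ (-(γ * θ)) = M ^ a := by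
        have : a = 1 + -(γ * θ) := by rw [ha]; ring
        rw [this, Real.rpow_add hMpos, Real.rpow_one]
      rw [e2] at hr
      have e4 : (mean κ - η') * ε * M * ((1 + ε) ^ (-θ) * M ^ (-(γ * θ))) = A * M ^ a := by
        rw [hA, ← e3]
        ring
      rw [e4] at hr
      have h5 : D / q ^ (-(1 - β)) * M ^ (43 / 50 : ℝ) ≤ D * M ^ b := by
        have e5 : D / q ^ (-(1 - β)) = D * q ^ (1 - β) := by
          rw [Real.rpow_neg hq0.le, div_inv_eq_mul]
        rw [e5]
        have h6 : q ^ (1 - β) ≤ M ^ (1 - β) := by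
          refine Real.rpow_le_rpow hq0.le ?_ (by linarith)
          rw [hq]
          nlinarith
        have e6 : M ^ b = M ^ (1 - β) * M ^ (43 / 50 : ℝ) := by
          rw [← Real.rpow_add hMpos, hb]
          congr 1
          ring
        rw [e6]
        have h7 := mul_le_mul_of_nonneg_right (mul_le_mul_of_nonneg_left h6 hD)
          (Real.rpow_nonneg hMpos.le (43 / 50 : ℝ))
        linarith
      linarith)
    N hN0
  beta_reduce at key
  have hp : 0 < (N : ℝ) ^ a := Real.rpow_pos_of_pos hN0 _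
  have h3 := mul_le_mul_of_nonneg_right hAa hp.le
  have h4 : (mean κ / a - η) * (N : ℝ) ^ a ≤ (mean κ / a - 5 * η') * (N : ℝ) ^ a :=
    mul_le_mul_of_nonneg_right (by linarith) hp.le
  have e9 : (mean κ / a - 5 * η') * (N : ℝ) ^ a = (mean κ / a - 4 * η') * (N : ℝ) ^ a -
      η' * (N : ℝ) ^ a := by ring
  rw [e9] at h4
  linarith

end Pool.Agent.H12.EW
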