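import Pool.Agent.H12.EW.LowI
import Pool.Agent.H12.EV.Cont

/-!
The density of the `n` whose trajectory reaches `L * n` before it falls below `n ^ β` is the
probability `reach L` of the model.
-/

namespace Pool.Agent.H12.EW

open Filter Finset Pool.Agent.H12.EU Pool.Agent.H83.EX Pool.Agent.H12.EV

/-- The trajectory of `n` reaches `L * n` before it falls below `n ^ β`. -/
def ReachB (β L : ℝ) (n : ℕ) : Prop :=
  ∃ i : ℕ, L * n ≤ (C^[i] n : ℝ) ∧ ∀ j : ℕ, j ≤ i → (n : ℝ) ^ β ≤ (C^[j] n : ℝ)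

lemma intUpA {ε A : ℝ} (hε : 0 < ε) (hε2 : ε ≤ 1 / 4) (hA : 0 ≤ A) :
    ∃ M0 D : ℝ, 1 ≤ M0 ∧ 0 ≤ D ∧ ∀ M X R : ℝ, M0 ≤ M →
      ((1 - ε) * M) ^ (1 / 2 : ℝ) ≤ R → R ≤ M → 1 / 2 ≤ X →
      ∑ r ∈ range 6, F r (X / ((1 + ε) * M)) 0 ≤ 6 * A → ∀ P : ℕ → Prop,
      (∀ n : ℕ, (1 - ε) * M < n → (n : ℝ) ≤ M → P n → Reach X R n) →
      (cnt P M : ℝ) ≤ cnt P ((1 - ε) * M) + A * ε * M +
        D * (M / R) * M ^ (43 / 50 : ℝ) := by
  classical
  obtain ⟨B, hB0, hB⟩ := Pool.Agent.H19.EV.upF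
  obtain ⟨M1, hM11, hM1⟩ := factor_bound0 hε hε2
  refine ⟨max M1 4, 48 * B + 6 * A, hM11.trans (le_max_left _ _), by positivity, ?_⟩
  intro M X R hM hRlow hRM hx hXA P hP
  have hMM1 : M1 ≤ M := (le_max_left _ _).trans hM
  have hM4 : 4 ≤ M := (le_max_right _ _).trans hM
  have hM1' : 1 ≤ M := by linarith
  have hM0 : 0 < M := by linarith
  have hX0 : 0 < X := by linarith
  obtain ⟨hz1, hz2⟩ := hM1 M R hMM1 hRlow
  have hRhalf : 1 / 2 ≤ R := by
    refine le_trans ?_ hRlow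
    have h1 : (1 : ℝ) ≤ ((1 - ε) * M) ^ (1 / 2 : ℝ) := Real.one_le_rpow (by nlinarith) (by norm_num)
    linarith
  have hR0 : 0 < R := by linarith
  set q : ℝ := (1 - ε) * M with hq
  have hq0 : 0 < q := mul_pos (by linarith) hM0
  set m := Nat.log 2 ⌊M⌋₊ + 1 with hm
  set z : ℝ := (1 + 1 / (2 * R)) ^ m with hz
  have hz0 : 0 < z := by positivity
  have hab : q ≤ M := by rw [hq]; nlinarith
  have hsplit := cnt_split P hab
  set u := ⌊q⌋₊ with hu
  set w := ⌊M⌋₊ with hw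
  have huw : u ≤ w := Nat.floor_le_floor hab
  have hl := card_Ioc_le P X R u w (by
    intro n h1 h2 h3
    exact hP n ((Nat.floor_lt hq0.le).mp h1) ((Nat.le_floor_iff hM0.le).mp h2) h3)
  have hwlt : w < 2 ^ m := Nat.lt_pow_succ_log_self (by norm_num) w
  have hwM : (w : ℝ) ≤ M := Nat.floor_le hM0.le
  have hzy0 : 0 < z * (M + 1 / 4) := by positivity
  have hL'' : X / ((1 + ε) * M) ≤ X / (z * (M + 1 / 4)) :=
    div_le_div_of_nonneg_left hX0.le hzy0 hz1
  have hsumF : ∑ r ∈ range 6, F r (X / (z * (M + 1 / 4))) (R / (z * (M + 1 / 4))) ≤ 6 * A :=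
    (Finset.sum_le_sum (fun r _ => F_anti r hL'' (by positivity))).trans hXA
  have hcls : ∀ j ∈ range 6, (NU (u + 1 + j) 1 X R ((w - u + 6 - 1 - j) / 6) : ℝ) ≤
      (ε * M / 6 + 1) * F ((u + 1 + j) % 6) (X / (z * (M + 1 / 4))) (R / (z * (M + 1 / 4))) +
        8 * B * (M / R) * M ^ (43 / 50 : ℝ) := by
    intro j hj
    rw [mem_range] at hj
    set T : ℕ := (w - u + 6 - 1 - j) / 6 with hT
    have hTw : T ≤ w := by omega
    have hup := hB X R hx hRhalf m T (by omega) (u + 1 + j) 1 M (by norm_num) (by norm_num)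
      hM0.le (by
        intro s hs
        have h1 : u + 1 + j + 6 * 1 * s ≤ w := by omega
        have h2 : ((u + 1 + j + 6 * 1 * s : ℕ) : ℝ) ≤ (w : ℝ) := by exact_mod_cast h1
        exact h2.trans hwM)
    rw [← hz] at hup
    refine hup.trans ?_
    have hT0 : (0 : ℝ) ≤ T := Nat.cast_nonneg T
    have hT1 : (T : ℝ) ≤ ε * M / 6 + 1 := by
      have h1 : T * 6 ≤ w - u + 5 := by omega
      have h2 : ((T * 6 : ℕ) : ℝ) ≤ ((w - u + 5 : ℕ) : ℝ) := by exact_mod_cast h1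
      rw [Nat.cast_add, Nat.cast_sub huw] at h2
      push_cast at h2
      have h4 : q < u + 1 := Nat.lt_floor_add_one _
      rw [hq] at h4
      linarith
    have hTM : (T : ℝ) ≤ M := by
      have h2 : (T : ℝ) ≤ (w : ℝ) := by exact_mod_cast hTw
      exact h2.trans hwM
    have hTp : (T : ℝ) ^ (43 / 50 : ℝ) ≤ M ^ (43 / 50 : ℝ) :=
      Real.rpow_le_rpow hT0 hTM (by norm_num)
    have hyR : (M + 1 / 4) / R ≤ 4 * (M / R) := by
      rw [← mul_div_assoc]
      exact div_le_div_of_nonneg_right (by linarith) hR0.le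
    have hFnn : 0 ≤ F ((u + 1 + j) % 6) (X / (z * (M + 1 / 4))) (R / (z * (M + 1 / 4))) :=
      F_nonneg _ _ _
    have hMR0 : 0 ≤ M / R := by positivity
    refine add_le_add (mul_le_mul_of_nonneg_right hT1 hFnn) ?_
    calc B * z * (T : ℝ) ^ (43 / 50 : ℝ) * ((M + 1 / 4) / R)
        ≤ B * 2 * M ^ (43 / 50 : ℝ) * (4 * (M / R)) := by
          refine mul_le_mul ?_ hyR (by positivity) (by positivity)
          refine mul_le_mul ?_ hTp (by positivity) (by positivity)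
          exact mul_le_mul_of_nonneg_left hz2 hB0
      _ = 8 * B * (M / R) * M ^ (43 / 50 : ℝ) := by ring
  have hsum := Finset.sum_le_sum hcls
  have hsum2 : ∑ j ∈ range 6, ((ε * M / 6 + 1) * F ((u + 1 + j) % 6)
      (X / (z * (M + 1 / 4))) (R / (z * (M + 1 / 4))) + 8 * B * (M / R) * M ^ (43 / 50 : ℝ)) =
      (ε * M / 6 + 1) * (∑ r ∈ range 6, F r (X / (z * (M + 1 / 4)))
        (R / (z * (M + 1 / 4)))) + 48 * B * (M / R) * M ^ (43 / 50 : ℝ) := by
    rw [Finset.sum_add_distrib, ← Finset.mul_sum,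
      sum_mod (fun r => F r (X / (z * (M + 1 / 4))) (R / (z * (M + 1 / 4)))) (u + 1)]
    simp
    ring
  rw [hsum2] at hsum
  have hcast : (((Ioc u w).filter P).card : ℝ) ≤
      ∑ j ∈ range 6, (NU (u + 1 + j) 1 X R ((w - u + 6 - 1 - j) / 6) : ℝ) := by
    exact_mod_cast hl
  have hsr : (cnt P M : ℝ) = (cnt P q : ℝ) + (((Ioc u w).filter P).card : ℝ) := by
    exact_mod_cast hsplit
  rw [hsr]
  have hM1p : 1 ≤ M ^ (43 / 50 : ℝ) := Real.one_le_rpow hM1' (by norm_num)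
  have hMR1 : 1 ≤ M / R := by
    rw [le_div_iff₀ hR0]
    linarith
  have h1 : (ε * M / 6 + 1) * (∑ r ∈ range 6, F r (X / (z * (M + 1 / 4)))
        (R / (z * (M + 1 / 4)))) ≤ (ε * M / 6 + 1) * (6 * A) :=
    mul_le_mul_of_nonneg_left hsumF (by positivity)
  have h3 : 6 * A ≤ 6 * A * ((M / R) * M ^ (43 / 50 : ℝ)) := by
    have : 1 ≤ (M / R) * M ^ (43 / 50 : ℝ) := by nlinarith
    nlinarith
  have e9 : (48 * B + 6 * A) * (M / R) * M ^ (43 / 50 : ℝ) =
      48 * B * (M / R) * M ^ (43 / 50 : ℝ) + 6 * A * ((M / R) * M ^ (43 / 50 : ℝ)) := by ring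
  rw [e9]
  linarith


lemma F_leftR {r : ℕ} (hr : r < 6) {L R : ℝ} (hL : 0 < L) (hR : 0 < R) {η : ℝ} (hη : 0 < η) :
    ∀ᶠ ε : ℝ in nhdsWithin 0 (Set.Ioi 0),
      F r (L * (1 - ε)) (R * (1 - ε)) ≤ F r L R + η := by
  have hpow : Tendsto (fun i : ℕ => (19 / 20 : ℝ) ^ i * (40 / R)) atTop (nhds (0 * (40 / R))) :=
    (tendsto_pow_atTop_nhds_zero_of_lt_one (by norm_num) (by norm_num)).mul_const _
  rw [zero_mul] at hpow
  obtain ⟨i, hi⟩ := (hpow.eventually (gt_mem_nhds hη)).exists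
  have h1 := Phi_left i r L R hL hR
  have h2 : ∀ᶠ ε : ℝ in nhdsWithin 0 (Set.Ioi 0), ε < 1 / 2 := by
    have : ∀ᶠ ε : ℝ in nhds 0, ε < 1 / 2 := gt_mem_nhds (by norm_num)
    exact nhdsWithin_le_nhds this
  filter_upwards [h1, h2, self_mem_nhdsWithin] with ε a1 a2 a3
  have a3' : 0 < ε := a3
  have h3 := F_le_Phi i r (L * (1 - ε)) (R * (1 - ε)) hr (mul_pos hL (by linarith))
    (mul_pos hR (by linarith))
  rw [a1] at h3
  have h4 := Phi_le_F i r L R
  have h5 : w r / (R * (1 - ε)) ≤ 2 / R := by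
    rw [div_le_div_iff₀ (mul_pos hR (by linarith)) hR]
    have := w_le_one r
    nlinarith
  have h6 : (19 / 20 : ℝ) ^ i * 20 * (w r / (R * (1 - ε))) ≤ (19 / 20) ^ i * 20 * (2 / R) :=
    mul_le_mul_of_nonneg_left h5 (by positivity)
  have e : (19 / 20 : ℝ) ^ i * 20 * (2 / R) = (19 / 20 : ℝ) ^ i * (40 / R) := by ring
  linarith

lemma small_pow {C θ L η : ℝ} (hC : 0 < C) (hθ : 1 ≤ θ) (hL : 0 < L) (hη : 0 < η) :
    ∃ R : ℝ, 0 < R ∧ R ≤ 1 ∧ ∀ R' : ℝ, 0 < R' → R' ≤ R → C * (R' / L) ^ θ ≤ η := by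
  set x : ℝ := min 1 (η / C) with hx
  have hx0 : 0 < x := lt_min one_pos (by positivity)
  have hx1 : x ≤ 1 := min_le_left _ _
  have hx2 : C * x ≤ η := by
    have h1 : x ≤ η / C := min_le_right _ _
    rw [le_div_iff₀ hC] at h1
    linarith
  refine ⟨min 1 (L * x), lt_min one_pos (by positivity), min_le_left _ _, ?_⟩
  intro R' hR' hle
  have h1 : R' / L ≤ x := by
    rw [div_le_iff₀ hL]
    linarith [hle.trans (min_le_right _ _)]
  have h2 : 0 < R' / L := by positivity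
  have h3 : (R' / L) ^ θ ≤ (R' / L) ^ (1 : ℝ) :=
    Real.rpow_le_rpow_of_exponent_ge h2 (h1.trans hx1) hθ
  rw [Real.rpow_one] at h3
  have h4 : C * (R' / L) ^ θ ≤ C * x := mul_le_mul_of_nonneg_left (h3.trans h1) hC.le
  linarith

lemma left0 {θ : ℝ} {v : ℕ → ℝ} (hPar : Par θ v) {L : ℝ} (hL : 0 < L) {η : ℝ} (hη : 0 < η) :
    ∀ᶠ ε : ℝ in nhdsWithin 0 (Set.Ioi 0),
      ∑ r ∈ range 6, F r (L * (1 - ε)) 0 ≤ 6 * (reach L + η) := by
  obtain ⟨C, hC, hb⟩ := Pool.H75.EV.base hPar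
  obtain ⟨R, hR0, hR1, hR⟩ := small_pow hC (show 1 ≤ θ by linarith [hPar.hθ1]) hL
    (show 0 < η / 2 by linarith)
  have h1 : ∀ᶠ ε : ℝ in nhdsWithin 0 (Set.Ioi 0), ∀ r ∈ range 6,
      F r (L * (1 - ε)) (R * (1 - ε)) ≤ F r L R + η / 2 := by
    rw [Filter.eventually_all_finset]
    intro r hr
    exact F_leftR (mem_range.mp hr) hL hR0 (by linarith)
  have h2 : ∀ᶠ ε : ℝ in nhdsWithin 0 (Set.Ioi 0), ε < 1 / 2 := by
    have : ∀ᶠ ε : ℝ in nhds 0, ε < 1 / 2 := gt_mem_nhds (by norm_num)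
    exact nhdsWithin_le_nhds this
  filter_upwards [h1, h2, self_mem_nhdsWithin] with ε a1 a2 a3
  have a3' : 0 < ε := a3
  have h1ε : 0 < 1 - ε := by linarith
  have h3 : ∀ r ∈ range 6, F r (L * (1 - ε)) 0 ≤ F r L 0 + η := by
    intro r hr
    have h4 := hb r (L * (1 - ε)) (R * (1 - ε)) (mem_range.mp hr) (mul_pos hL h1ε)
      (mul_pos hR0 h1ε)
    have e : R * (1 - ε) / (L * (1 - ε)) = R / L := by
      field_simp
    rw [e] at h4
    have h5 := hR R hR0 le_rfl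
    have h6 := a1 r hr
    have h7 : F r L R ≤ F r L 0 := F_anti r le_rfl hR0.le
    linarith
  have h4 := Finset.sum_le_sum h3
  have e : ∑ r ∈ range 6, (F r L 0 + η) = 6 * (reach L + η) := by
    rw [Finset.sum_add_distrib, reach_eq]
    unfold mod
    simp
    ring
  linarith

lemma dens_up {θ : ℝ} {v : ℕ → ℝ} (hPar : Par θ v) {L β : ℝ} (hL : 0 < L) (hβ1 : β < 1)
    (hβ : 43 / 50 < β) {η : ℝ} (hη : 0 < η) :
    ∀ᶠ N : ℕ in atTop, (cnt (fun n => ReachB β L n ∨ StaysB β n) (N : ℝ) : ℝ) ≤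
      (reach L + η) * (N : ℝ) := by
  have hre0 : 0 ≤ reach L := by
    rw [reach_eq]
    unfold mod
    exact div_nonneg (Finset.sum_nonneg (fun r _ => F_nonneg r L 0)) (by norm_num)
  set b : ℝ := 43 / 50 + (1 - β) with hb
  have hab : b < 1 := by
    rw [hb]
    linarith
  have hb0 : 0 < b := by
    rw [hb]
    linarith
  have hβ0 : 1 / 2 ≤ β := by linarith
  have h2 : ∀ᶠ ε : ℝ in nhdsWithin 0 (Set.Ioi 0), ε < 1 / 2 := by
    have : ∀ᶠ ε : ℝ in nhds 0, ε < 1 / 2 := gt_mem_nhds (by norm_num)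
    exact nhdsWithin_le_nhds this
  obtain ⟨ε', he1, he2, he3⟩ := ((left0 hPar hL (show 0 < η / 2 by linarith)).and
    (h2.and self_mem_nhdsWithin)).exists
  have he3' : 0 < ε' := he3
  set ε : ℝ := ε' / 2 with hε
  have hε0 : 0 < ε := by rw [hε]; linarith
  have hε4 : ε ≤ 1 / 4 := by rw [hε]; linarith
  have h1ε : 0 < 1 - ε := by linarith
  set A : ℝ := reach L + η / 2 with hA
  have hA0 : 0 ≤ A := by rw [hA]; linarith
  obtain ⟨M0, D, hM0, hD, hrec⟩ := intUpA hε0 hε4 hA0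
  set M1 : ℝ := max (max M0 (1 / L)) 4 with hM1
  have hM1ge : 4 ≤ M1 := le_max_right _ _
  have hqb : (1 - ε) ^ b < 1 := Real.rpow_lt_one h1ε.le (by linarith) hb0
  have hsumA : ∑ r ∈ range 6, F r (L * (1 - ε) / (1 + ε)) 0 ≤ 6 * A := by
    refine le_trans (Finset.sum_le_sum (fun r _ => F_anti r ?_ le_rfl)) he1
    rw [le_div_iff₀ (by linarith), mul_assoc]
    refine mul_le_mul_of_nonneg_left ?_ hL.le
    rw [hε]
    nlinarith
  have hev := small_err2 M1 (2 * D / (1 - (1 - ε) ^ b)) hb0 hab (show 0 < η / 2 by linarith)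
  filter_upwards [hev, eventually_ge_atTop 1] with N h1 h2
  have hN0 : (0 : ℝ) < N := by exact_mod_cast h2
  have key := rec_up (f := fun M => (cnt (fun n => ReachB β L n ∨ StaysB β n) M : ℝ))
    (q := 1 - ε) (A := A * ε) (D := 2 * D) (a := 1) (b := b) (C := M1) (M1 := M1)
    h1ε (by linarith) one_pos hb0 (by positivity) (by linarith) (by linarith)
    (by linarith) (fun M hM hle => (cnt_le _ hM.le).trans hle)
    (by
      intro M hM
      have hMM0 : M0 ≤ M := ((le_max_left _ _).trans (le_max_left _ _)).trans hM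
      have hMM2 : 1 / L ≤ M := ((le_max_right _ _).trans (le_max_left _ _)).trans hM
      have hM4 : 4 ≤ M := (le_max_right _ _).trans hM
      have hMpos : 0 < M := by linarith
      set q : ℝ := (1 - ε) * M with hq
      have hq1 : 1 ≤ q := by
        rw [hq]
        nlinarith
      have hq0 : 0 < q := by linarith
      have hqM : q ≤ M := by
        rw [hq]
        nlinarith
      have hLq : 1 / 2 ≤ L * q := by
        rw [div_le_iff₀ hL] at hMM2
        have h3 : 1 / 2 * M ≤ q := by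
          rw [hq]
          exact mul_le_mul_of_nonneg_right (by linarith) hMpos.le
        have h4 := mul_le_mul_of_nonneg_left h3 hL.le
        linarith
      have hr := hrec M (L * q) (q ^ β) hMM0
        (Real.rpow_le_rpow_of_exponent_le hq1 hβ0)
        ((Real.rpow_le_rpow_of_exponent_le hq1 hβ1.le).trans (by
          rw [Real.rpow_one]
          exact hqM))
        hLq
        (by
          have e : L * q / ((1 + ε) * M) = L * (1 - ε) / (1 + ε) := by
            rw [hq]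
            have : (1 + ε) ≠ 0 := by linarith
            field_simp
          rw [e]
          exact hsumA)
        (fun n => ReachB β L n ∨ StaysB β n) (by
        intro n h1 h2 h3
        have hbn : q ^ β ≤ (n : ℝ) ^ β := Real.rpow_le_rpow hq0.le h1.le (by linarith)
        rcases h3 with h3 | h3
        · obtain ⟨i, hi, hj⟩ := h3
          refine Or.inl ⟨i, ?_, ?_⟩
          · have : L * q ≤ L * n := mul_le_mul_of_nonneg_left h1.le hL.le
            linarith
          · intro j hji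
            exact hbn.trans (hj j hji)
        · exact Or.inr (fun j => hbn.trans (h3 j)))
      beta_reduce
      have h5 : D * (M / q ^ β) * M ^ (43 / 50 : ℝ) ≤ 2 * D * M ^ b := by
        have h6 : M / q ^ β ≤ 2 * M ^ (1 - β) := by
          rw [div_le_iff₀ (Real.rpow_pos_of_pos hq0 _)]
          have h7 : M ^ (1 - β) * M ^ β = M := by
            rw [← Real.rpow_add hMpos]
            simp
          have h8 : 1 / 2 * M ^ β ≤ q ^ β := by
            rw [hq, Real.mul_rpow h1ε.le hMpos.le]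
            refine mul_le_mul_of_nonneg_right ?_ (Real.rpow_nonneg hMpos.le _)
            have h9 : (1 - ε) ^ (1 : ℝ) ≤ (1 - ε) ^ β :=
              Real.rpow_le_rpow_of_exponent_ge h1ε (by linarith) hβ1.le
            rw [Real.rpow_one] at h9
            linarith
          have h10 : M ^ (1 - β) * (1 / 2 * M ^ β) ≤ M ^ (1 - β) * q ^ β :=
            mul_le_mul_of_nonneg_left h8 (Real.rpow_nonneg hMpos.le _)
          have h11 : M ^ (1 - β) * (1 / 2 * M ^ β) = 1 / 2 * M := by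
            have e : M ^ (1 - β) * (1 / 2 * M ^ β) = 1 / 2 * (M ^ (1 - β) * M ^ β) := by ring
            rw [e, h7]
          linarith
        have e4 : M ^ b = M ^ (1 - β) * M ^ (43 / 50 : ℝ) := by
          rw [← Real.rpow_add hMpos, hb]
          congr 1
          ring
        rw [e4]
        have h12 : D * (M / q ^ β) ≤ D * (2 * M ^ (1 - β)) := mul_le_mul_of_nonneg_left h6 hD
        have h13 := mul_le_mul_of_nonneg_right h12 (Real.rpow_nonneg hMpos.le (43 / 50 : ℝ))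
        linarith
      rw [Real.rpow_one]
      linarith)
    N hN0
  beta_reduce at key
  have e5 : A * ε / (1 - (1 - ε) ^ (1 : ℝ)) = A := by
    rw [Real.rpow_one]
    have : 1 - (1 - ε) = ε := by ring
    rw [this]
    field_simp
  rw [e5, Real.rpow_one] at key
  rw [Real.rpow_one] at h1
  rw [hA] at key
  linarith

lemma dens_low {θ : ℝ} {v : ℕ → ℝ} (hPar : Par θ v) {L β : ℝ} (hL : 0 < L) (hβ1 : β < 1)
    {η : ℝ} (hη : 0 < η) :
    ∀ᶠ N : ℕ in atTop, (reach L - η) * (N : ℝ) ≤ (cnt (fun n => ReachB β L n) (N : ℝ) : ℝ) := by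
  classical
  obtain ⟨B, hB0, hB⟩ := lowG hPar
  obtain ⟨C, hC, hb⟩ := Pool.H75.EV.base hPar
  obtain ⟨R1, hR0, hR1, hR⟩ := small_pow hC (show 1 ≤ θ by linarith [hPar.hθ1]) hL
    (show 0 < η / 4 by linarith)
  have hre0 : 0 ≤ reach L := by
    rw [reach_eq]
    unfold mod
    exact div_nonneg (Finset.sum_nonneg (fun r _ => F_nonneg r L 0)) (by norm_num)
  have hre1 : reach L ≤ 1 := by
    rw [reach_eq]
    unfold mod
    rw [div_le_one (by norm_num)]
    have : ∑ r ∈ range 6, F r L 0 ≤ ∑ r ∈ range 6, (1 : ℝ) :=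
      Finset.sum_le_sum (fun r _ => F_le_one r L 0)
    simpa using this
  -- cut off at `ε N`
  set ε : ℝ := min (1 / 2) (η / 4) with hε
  have hε0 : 0 < ε := lt_min (by norm_num) (by linarith)
  have hε1 : ε ≤ 1 / 2 := min_le_left _ _
  have hε2 : ε ≤ η / 4 := min_le_right _ _
  have tR : Tendsto (fun N : ℕ => (ε * (N : ℝ)) ^ (-(1 - β))) atTop (nhds 0) :=
    (tendsto_rpow_neg_atTop (by linarith)).comp
      (tendsto_natCast_atTop_atTop.const_mul_atTop hε0)
  have hev := small_err2 6 (6 * B * L ^ (-2 : ℝ)) (b0 := 43 / 45) (b := 1)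
    (s := η / 4) (by norm_num) (by norm_num) (by linarith)
  filter_upwards [tR.eventually (gt_mem_nhds hR0), hev, eventually_ge_atTop 1] with N h1 h2 h3
  have hN0 : (0 : ℝ) < N := by exact_mod_cast h3
  set R : ℝ := (ε * (N : ℝ)) ^ (-(1 - β)) with hRdef
  have hRpos : 0 < R := Real.rpow_pos_of_pos (by positivity) _
  set u : ℕ := ⌊ε * (N : ℝ)⌋₊ with hu
  have huN : (u : ℝ) ≤ ε * N := Nat.floor_le (by positivity)
  have huN' : u ≤ N := by
    have : (u : ℝ) ≤ N := by nlinarith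
    exact_mod_cast this
  have hl := le_card_IocR (fun n => ReachB β L n) L R u N (by
    intro n g1 g2 g3
    obtain ⟨i, hi, hj⟩ := g3
    have hn1 : ε * (N : ℝ) < n := (Nat.floor_lt (by positivity)).mp g1
    have hn0 : (0 : ℝ) < n := lt_of_le_of_lt (by positivity) hn1
    refine ⟨i, hi, ?_⟩
    intro j hji
    refine le_trans ?_ (hj j hji)
    have e1 : (n : ℝ) ^ β = (n : ℝ) ^ (-(1 - β)) * n := by
      rw [← Real.rpow_add_one hn0.ne']
      congr 1
      ring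
    rw [e1]
    exact mul_le_mul_of_nonneg_right
      (Real.rpow_le_rpow_of_nonpos (by positivity) hn1.le (by linarith)) hn0.le)
  set T : ℕ := (N - u) / 6 with hT
  have hsum : ∑ j ∈ range 6, ((T : ℝ) * F ((u + 1 + j) % 6) L R -
      B * (T : ℝ) ^ (43 / 45 : ℝ) * L ^ (-2 : ℝ)) ≤
      ∑ j ∈ range 6, (NL (u + 1 + j) 1 L R T : ℝ) :=
    Finset.sum_le_sum (fun j _ => hB T (u + 1 + j) 1 L R (by norm_num) (by norm_num) hL hRpos.le)
  have hsum2 : ∑ j ∈ range 6, ((T : ℝ) * F ((u + 1 + j) % 6) L R -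
      B * (T : ℝ) ^ (43 / 45 : ℝ) * L ^ (-2 : ℝ)) =
      T * (∑ r ∈ range 6, F r L R) - 6 * (B * (T : ℝ) ^ (43 / 45 : ℝ) * L ^ (-2 : ℝ)) := by
    rw [Finset.sum_sub_distrib, ← Finset.mul_sum, sum_mod (fun r => F r L R) (u + 1)]
    simp
  rw [hsum2] at hsum
  have hcnt : ∑ j ∈ range 6, NL (u + 1 + j) 1 L R T ≤ cnt (fun n => ReachB β L n) (N : ℝ) := by
    refine hl.trans ?_
    rw [cnt_nat]
    refine Finset.card_le_card ?_
    intro n hn
    rw [Finset.mem_filter, Finset.mem_Ioc] at hn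
    rw [Finset.mem_filter, Finset.mem_Icc]
    exact ⟨⟨by omega, hn.1.2⟩, hn.2⟩
  have hcast : ∑ j ∈ range 6, (NL (u + 1 + j) 1 L R T : ℝ) ≤
      (cnt (fun n => ReachB β L n) (N : ℝ) : ℝ) := by exact_mod_cast hcnt
  have hF : 6 * (reach L - η / 4) ≤ ∑ r ∈ range 6, F r L R := by
    have g1 : ∑ r ∈ range 6, F r L 0 ≤ ∑ r ∈ range 6, (F r L R + η / 4) := by
      refine Finset.sum_le_sum ?_
      intro r hr
      have g2 := hb r L R (mem_range.mp hr) hL hRpos
      have g3 := hR R hRpos h1.le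
      linarith
    rw [Finset.sum_add_distrib] at g1
    rw [reach_eq]
    unfold mod
    simp at g1 ⊢
    linarith
  have hT2 : (1 - ε) * (N : ℝ) / 6 - 1 ≤ (T : ℝ) := by
    have g1 : N - u ≤ T * 6 + 5 := by omega
    have g2 : ((N - u : ℕ) : ℝ) ≤ ((T * 6 + 5 : ℕ) : ℝ) := by exact_mod_cast g1
    rw [Nat.cast_sub huN'] at g2
    push_cast at g2
    linarith
  have hTN : (T : ℝ) ≤ N := by
    have g1 : T ≤ N := (Nat.div_le_self _ _).trans (Nat.sub_le _ _)
    exact_mod_cast g1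
  have hTp : (T : ℝ) ^ (43 / 45 : ℝ) ≤ (N : ℝ) ^ (43 / 45 : ℝ) :=
    Real.rpow_le_rpow (Nat.cast_nonneg _) hTN (by norm_num)
  have hLm : 0 < L ^ (-2 : ℝ) := Real.rpow_pos_of_pos hL _
  have h5 : B * (T : ℝ) ^ (43 / 45 : ℝ) * L ^ (-2 : ℝ) ≤
      B * (N : ℝ) ^ (43 / 45 : ℝ) * L ^ (-2 : ℝ) :=
    mul_le_mul_of_nonneg_right (mul_le_mul_of_nonneg_left hTp hB0) hLm.le
  rw [Real.rpow_one] at h2
  rcases le_or_gt (reach L) (η / 4) with hc1 | hc1
  · have g1 : (reach L - η) * (N : ℝ) ≤ 0 := by nlinarith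
    exact g1.trans (Nat.cast_nonneg _)
  have h6 : ((1 - ε) * (N : ℝ) / 6 - 1) * (6 * (reach L - η / 4)) ≤
      T * (∑ r ∈ range 6, F r L R) := by
    have g1 := mul_le_mul_of_nonneg_right hT2 (show 0 ≤ 6 * (reach L - η / 4) by linarith)
    have g2 := mul_le_mul_of_nonneg_left hF (Nat.cast_nonneg T : (0 : ℝ) ≤ T)
    linarith
  have h7 : (reach L - η / 2) * (N : ℝ) - 6 ≤
      ((1 - ε) * (N : ℝ) / 6 - 1) * (6 * (reach L - η / 4)) := by
    have e : ((1 - ε) * (N : ℝ) / 6 - 1) * (6 * (reach L - η / 4)) =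
        (reach L - η / 4) * N - ε * (reach L - η / 4) * N - 6 * (reach L - η / 4) := by ring
    rw [e]
    have g1 : ε * (reach L - η / 4) * N ≤ η / 4 * 1 * N := by
      refine mul_le_mul_of_nonneg_right ?_ hN0.le
      exact mul_le_mul hε2 (by linarith) (by linarith) (by linarith)
    linarith
  have h8 : 0 ≤ η * (N : ℝ) := by positivity
  linarith

end Pool.Agent.H12.EW
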