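import Pool.Agent.H12.EV.Assemble
import Pool.Agent.H12.EV.Walk
import Pool.Agent.H12.EW.DeepS
import Pool.Agent.H82.EV.Renew

/-!
The probability that the model of the problem ever reaches a value at least `L`.
-/

namespace Pool.Agent.H12.EW

open Filter Finset Pool.Agent.H12.EU Pool.Agent.H83.EX Pool.Agent.H12.EV

/-- The probability that the model, started with the value `1` at a residue which is uniformly
distributed modulo 6, ever has a value at least `L` (`W i r L 0`: up to the time `i`, started at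
the residue `r`, without a lower barrier). -/
noncomputable def reach (L : ℝ) : ℝ := ⨆ i : ℕ, (∑ r : Fin 6, W i r L 0) / 6

lemma reach_eq (L : ℝ) : reach L = mod L 0 := by
  have t1 : Tendsto (fun i : ℕ => (∑ r ∈ range 6, Phi i r L 0) / 6) atTop (nhds (mod L 0)) := by
    unfold mod
    exact (tendsto_finset_sum _ (fun r _ => tendsto_Phi r L 0)).div_const 6
  have e : (fun i : ℕ => (∑ r : Fin 6, W i r L 0) / 6) =
      fun i : ℕ => (∑ r ∈ range 6, Phi i r L 0) / 6 := by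
    funext i
    simp only [W_eq]
    rw [Finset.sum_range]
  have hm : Monotone (fun i : ℕ => (∑ r ∈ range 6, Phi i r L 0) / 6) := by
    intro a b hab
    exact div_le_div_of_nonneg_right
      (Finset.sum_le_sum (fun r _ => Phi_mono r L 0 hab)) (by norm_num)
  have hb : BddAbove (Set.range (fun i : ℕ => (∑ r ∈ range 6, Phi i r L 0) / 6)) := by
    refine ⟨1, ?_⟩
    rintro x ⟨i, rfl⟩
    beta_reduce
    rw [div_le_one (by norm_num)]
    have : ∑ r ∈ range 6, Phi i r L 0 ≤ ∑ r ∈ range 6, (1 : ℝ) :=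
      Finset.sum_le_sum (fun r _ => Phi_le_one i r L 0)
    simpa using this
  unfold reach
  rw [e]
  exact tendsto_nhds_unique (tendsto_atTop_ciSup hm hb) t1

lemma reach_lim {θ : ℝ} {κ : ℕ → ℝ}
    (hc : ∀ r : ℕ, r < 6 → Tendsto (fun L : ℝ => F r L 0 * L ^ θ) atTop (nhds (κ r))) :
    Tendsto (fun L : ℝ => reach L * L ^ θ) atTop (nhds (mean κ)) := by
  have t1 : Tendsto (fun L : ℝ => (∑ r ∈ range 6, F r L 0 * L ^ θ) / 6) atTop
      (nhds (mean κ)) := by
    unfold mean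
    exact (tendsto_finset_sum _ (fun r hr => hc r (mem_range.mp hr))).div_const 6
  refine t1.congr ?_
  intro L
  rw [reach_eq]
  unfold mod
  rw [← Finset.sum_mul]
  ring

/-- `cnt P N` is the number of the `n` with `1 ≤ n ≤ N` and `P n`. -/
lemma ncard_cnt (P : ℕ → Prop) (N : ℕ) :
    Set.ncard {n : ℕ | 1 ≤ n ∧ n ≤ N ∧ P n} = cnt P (N : ℝ) := by
  classical
  have h : {n : ℕ | 1 ≤ n ∧ n ≤ N ∧ P n} =
      (((Finset.Icc 1 N).filter (fun n : ℕ => P n) : Finset ℕ) : Set ℕ) := by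
    ext n
    rw [Finset.mem_coe, Finset.mem_filter, Finset.mem_Icc]
    constructor
    · intro hn
      exact ⟨⟨hn.1, hn.2.1⟩, hn.2.2⟩
    · intro hn
      exact ⟨hn.1.1, hn.1.2, hn.2⟩
  rw [h, Set.ncard_coe_finset, cnt_nat]

lemma cnt_mono' {P Q : ℕ → Prop} (h : ∀ n, P n → Q n) (M : ℝ) : cnt P M ≤ cnt Q M := by
  classical
  unfold cnt
  refine Finset.card_le_card ?_
  intro n hn
  rw [Finset.mem_filter] at hn ⊢
  exact ⟨hn.1, h n hn.2⟩

/-- Two sided bounds give the limit. -/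
lemma lim_of {f g : ℕ → ℝ} {a k : ℝ} (hfg : ∀ N, f N ≤ g N)
    (hlow : ∀ η : ℝ, 0 < η → ∀ᶠ N : ℕ in atTop, (k - η) * (N : ℝ) ^ a ≤ f N)
    (hup : ∀ η : ℝ, 0 < η → ∀ᶠ N : ℕ in atTop, g N ≤ (k + η) * (N : ℝ) ^ a) :
    Tendsto (fun N : ℕ => f N / (N : ℝ) ^ a) atTop (nhds k) ∧
    Tendsto (fun N : ℕ => g N / (N : ℝ) ^ a) atTop (nhds k) := by
  have key : ∀ η : ℝ, 0 < η → ∀ᶠ N : ℕ in atTop,
      k - η ≤ f N / (N : ℝ) ^ a ∧ f N / (N : ℝ) ^ a ≤ g N / (N : ℝ) ^ a ∧
        g N / (N : ℝ) ^ a ≤ k + η := by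
    intro η hη
    filter_upwards [hlow η hη, hup η hη, eventually_ge_atTop 1] with N h1 h2 h3
    have hN0 : (0 : ℝ) < N := by exact_mod_cast h3
    have hp : 0 < (N : ℝ) ^ a := Real.rpow_pos_of_pos hN0 _
    refine ⟨?_, ?_, ?_⟩
    · rw [le_div_iff₀ hp]
      exact h1
    · exact div_le_div_of_nonneg_right (hfg N) hp.le
    · rw [div_le_iff₀ hp]
      exact h2
  constructor
  · rw [Metric.tendsto_nhds]
    intro s hs
    filter_upwards [key (s / 2) (by linarith)] with N h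
    rw [Real.dist_eq, abs_lt]
    constructor
    · linarith [h.1]
    · linarith [h.2.1, h.2.2]
  · rw [Metric.tendsto_nhds]
    intro s hs
    filter_upwards [key (s / 2) (by linarith)] with N h
    rw [Real.dist_eq, abs_lt]
    constructor
    · linarith [h.1, h.2.1]
    · linarith [h.2.2]

lemma lt_t {β ρ : ℝ} {n : ℕ} (h : ExceedsB β ρ n) :
    (((n : ℝ) ^ ρ : ℝ) : EReal) < t n := by
  obtain ⟨i, hi, _⟩ := h
  have h1 : (((C^[i] n : ℕ) : ℝ) : EReal) ≤ t n := le_iSup (fun i => (((C^[i] n : ℕ) : ℝ) : EReal)) i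
  refine lt_of_lt_of_le ?_ h1
  exact_mod_cast hi

end Pool.Agent.H12.EW
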