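import Pool.Agent.H12.EW.DeepG
import Pool.Agent.H12.EW.Walk0

/-!
Lower bounds for the number of `n` with `t(n) ≥ L * n` in all intervals.
-/

namespace Pool.Agent.H12.EW

open Filter Finset Pool.Agent.H12.EU Pool.Agent.H83.EX Pool.Agent.H12.EV

open Classical in
/-- The number of the `n` with `x < n ≤ x + H` and `t(n) ≥ L * n`. -/
noncomputable def K (L : ℝ) (x H : ℕ) : ℕ :=
  ((Ioc x (x + H)).filter (fun n : ℕ => ((L * (n : ℝ) : ℝ) : EReal) ≤ t n)).card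

lemma le_t_of_bigR {L : ℝ} {n : ℕ} (h : BigR L 0 n) : ((L * (n : ℝ) : ℝ) : EReal) ≤ t n := by
  obtain ⟨i, hi, _⟩ := h
  have h1 : (((C^[i] n : ℕ) : ℝ) : EReal) ≤ t n :=
    le_iSup (fun i => (((C^[i] n : ℕ) : ℝ) : EReal)) i
  refine le_trans ?_ h1
  exact_mod_cast hi

lemma K_low {θ : ℝ} {v : ℕ → ℝ} (hPar : Par θ v) : ∃ B : ℝ, 0 ≤ B ∧ ∀ (x H : ℕ) (L : ℝ), 0 < L →
    ((H : ℝ) - 6) * reach L - B * (H : ℝ) ^ (43 / 45 : ℝ) * L ^ (-2 : ℝ) ≤ (K L x H : ℝ) := by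
  classical
  obtain ⟨B, hB0, hB⟩ := lowG hPar
  refine ⟨6 * B, by positivity, ?_⟩
  intro x H L hL
  have hl := le_card_IocR (fun n : ℕ => ((L * (n : ℝ) : ℝ) : EReal) ≤ t n) L 0 x (x + H)
    (fun n _ _ h => le_t_of_bigR h)
  have e : x + H - x = H := by omega
  rw [e] at hl
  set T : ℕ := H / 6 with hT
  have hsum : ∑ j ∈ range 6, ((T : ℝ) * F ((x + 1 + j) % 6) L 0 -
      B * (T : ℝ) ^ (43 / 45 : ℝ) * L ^ (-2 : ℝ)) ≤
      ∑ j ∈ range 6, (NL (x + 1 + j) 1 L 0 T : ℝ) :=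
    Finset.sum_le_sum (fun j _ => hB T (x + 1 + j) 1 L 0 (by norm_num) (by norm_num) hL le_rfl)
  have hsum2 : ∑ j ∈ range 6, ((T : ℝ) * F ((x + 1 + j) % 6) L 0 -
      B * (T : ℝ) ^ (43 / 45 : ℝ) * L ^ (-2 : ℝ)) =
      T * (∑ r ∈ range 6, F r L 0) - 6 * (B * (T : ℝ) ^ (43 / 45 : ℝ) * L ^ (-2 : ℝ)) := by
    rw [Finset.sum_sub_distrib, ← Finset.mul_sum, sum_mod (fun r => F r L 0) (x + 1)]
    simp
  rw [hsum2] at hsum
  have hcast : ∑ j ∈ range 6, (NL (x + 1 + j) 1 L 0 T : ℝ) ≤ (K L x H : ℝ) := by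
    have h1 : ∑ j ∈ range 6, NL (x + 1 + j) 1 L 0 T ≤ K L x H := by
      refine hl.trans (le_of_eq ?_)
      unfold K
      congr
    exact_mod_cast h1
  have hre : ∑ r ∈ range 6, F r L 0 = 6 * reach L := by
    rw [reach_eq]
    unfold mod
    ring
  have hre0 : 0 ≤ reach L := by
    have h1 : 0 ≤ ∑ r ∈ range 6, F r L 0 := Finset.sum_nonneg (fun r _ => F_nonneg r L 0)
    linarith
  rw [hre] at hsum
  have hT2 : (H : ℝ) / 6 - 1 ≤ (T : ℝ) := by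
    have h1 : H ≤ T * 6 + 5 := by omega
    have h2 : (H : ℝ) ≤ ((T * 6 + 5 : ℕ) : ℝ) := by exact_mod_cast h1
    push_cast at h2
    linarith
  have hTH : (T : ℝ) ≤ H := by
    have h1 : T ≤ H := Nat.div_le_self _ _
    exact_mod_cast h1
  have hTp : (T : ℝ) ^ (43 / 45 : ℝ) ≤ (H : ℝ) ^ (43 / 45 : ℝ) :=
    Real.rpow_le_rpow (Nat.cast_nonneg _) hTH (by norm_num)
  have hLm : 0 < L ^ (-2 : ℝ) := Real.rpow_pos_of_pos hL _
  have h5 : B * (T : ℝ) ^ (43 / 45 : ℝ) * L ^ (-2 : ℝ) ≤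
      B * (H : ℝ) ^ (43 / 45 : ℝ) * L ^ (-2 : ℝ) :=
    mul_le_mul_of_nonneg_right (mul_le_mul_of_nonneg_left hTp hB0) hLm.le
  have h6 : ((H : ℝ) / 6 - 1) * (6 * reach L) ≤ T * (6 * reach L) :=
    mul_le_mul_of_nonneg_right hT2 (by linarith)
  linarith

/-- Large `L`, uniformly up to `H ^ 0.17`. -/
lemma K_asym {θ : ℝ} {v κ : ℕ → ℝ} (hPar : Par θ v) (hθ : θ < 52 / 23)
    (hc : ∀ r : ℕ, r < 6 → Tendsto (fun L : ℝ => F r L 0 * L ^ θ) atTop (nhds (κ r)))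
    {η : ℝ} (hη : 0 < η) :
    ∃ (H₀ : ℕ) (L₀ : ℝ), ∀ x H : ℕ, H₀ ≤ H → ∀ L : ℝ, L₀ ≤ L → L ≤ (H : ℝ) ^ (17 / 100 : ℝ) →
      (mean κ - η) * ((H : ℝ) * L ^ (-θ)) ≤ (K L x H : ℝ) := by
  obtain ⟨B, hB0, hB⟩ := K_low hPar
  have hl := (reach_lim hc).eventually (lt_mem_nhds (show mean κ - η / 2 < mean κ by linarith))
  obtain ⟨L1, hL1⟩ := Filter.eventually_atTop.mp hl
  have hev := small_err2 (6 * mean κ) B (b0 := 43 / 45 + (52 / 23 - 2) * (17 / 100)) (b := 1)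
    (s := η / 2) (by norm_num) (by norm_num) (by linarith)
  obtain ⟨H1, hH1⟩ := Filter.eventually_atTop.mp hev
  refine ⟨max H1 6, max L1 1, ?_⟩
  intro x H hH L hL hLH
  have hH1' : H1 ≤ H := (le_max_left _ _).trans hH
  have hH6 : 6 ≤ H := (le_max_right _ _).trans hH
  have hHr : (6 : ℝ) ≤ H := by exact_mod_cast hH6
  have hHpos : (0 : ℝ) < H := by linarith
  have hL1' : L1 ≤ L := (le_max_left _ _).trans hL
  have hL1r : 1 ≤ L := (le_max_right _ _).trans hL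
  have hLpos : 0 < L := by linarith
  have hLθ : 0 < L ^ (-θ) := Real.rpow_pos_of_pos hLpos _
  rcases le_or_gt (mean κ) η with hc1 | hc1
  · have h1 : (mean κ - η) * ((H : ℝ) * L ^ (-θ)) ≤ 0 := by
      have : 0 ≤ (H : ℝ) * L ^ (-θ) := by positivity
      nlinarith
    exact h1.trans (Nat.cast_nonneg _)
  have h1 := hB x H L hLpos
  have h2 := (hL1 L hL1').le
  have h3 : (mean κ - η / 2) * L ^ (-θ) ≤ reach L := by
    have h4 := mul_le_mul_of_nonneg_right h2 hLθ.le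
    have e1 : reach L * L ^ θ * L ^ (-θ) = reach L := by
      rw [mul_assoc, ← Real.rpow_add hLpos]
      simp
    rw [e1] at h4
    exact h4
  have h4 : ((H : ℝ) - 6) * ((mean κ - η / 2) * L ^ (-θ)) ≤ ((H : ℝ) - 6) * reach L :=
    mul_le_mul_of_nonneg_left h3 (by linarith)
  have h5 : L ^ (-2 : ℝ) ≤ L ^ (-θ) * (H : ℝ) ^ ((52 / 23 - 2) * (17 / 100) : ℝ) := by
    have e1 : L ^ (-2 : ℝ) = L ^ (-θ) * L ^ (θ - 2) := by
      rw [← Real.rpow_add hLpos]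
      congr 1
      ring
    rw [e1]
    refine mul_le_mul_of_nonneg_left ?_ hLθ.le
    have h6 : L ^ (θ - 2) ≤ L ^ ((52 : ℝ) / 23 - 2) :=
      Real.rpow_le_rpow_of_exponent_le hL1r (by linarith)
    have h7 : L ^ ((52 : ℝ) / 23 - 2) ≤ ((H : ℝ) ^ (17 / 100 : ℝ)) ^ ((52 : ℝ) / 23 - 2) :=
      Real.rpow_le_rpow hLpos.le hLH (by norm_num)
    have e2 : ((H : ℝ) ^ (17 / 100 : ℝ)) ^ ((52 : ℝ) / 23 - 2) =
        (H : ℝ) ^ ((52 / 23 - 2) * (17 / 100) : ℝ) := by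
      rw [← Real.rpow_mul hHpos.le]
      congr 1
      ring
    rw [e2] at h7
    exact h6.trans h7
  have h8 := hH1 H hH1'
  rw [Real.rpow_one] at h8
  have e3 : (H : ℝ) ^ (43 / 45 + (52 / 23 - 2) * (17 / 100) : ℝ) =
      (H : ℝ) ^ (43 / 45 : ℝ) * (H : ℝ) ^ ((52 / 23 - 2) * (17 / 100) : ℝ) :=
    Real.rpow_add hHpos _ _
  rw [e3] at h8
  have h9 : B * (H : ℝ) ^ (43 / 45 : ℝ) * L ^ (-2 : ℝ) ≤
      B * (H : ℝ) ^ (43 / 45 : ℝ) * (L ^ (-θ) * (H : ℝ) ^ ((52 / 23 - 2) * (17 / 100) : ℝ)) :=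
    mul_le_mul_of_nonneg_left h5 (by positivity)
  have h10 := mul_le_mul_of_nonneg_right h8 hLθ.le
  have h11 : 0 ≤ η * L ^ (-θ) := by positivity
  nlinarith

/-- Fixed `L`. -/
lemma K_dens {θ : ℝ} {v : ℕ → ℝ} (hPar : Par θ v) {L : ℝ} (hL : 0 < L) {η : ℝ} (hη : 0 < η) :
    ∃ H₀ : ℕ, ∀ x H : ℕ, H₀ ≤ H → (reach L - η) * (H : ℝ) ≤ (K L x H : ℝ) := by
  obtain ⟨B, hB0, hB⟩ := K_low hPar
  have hev := small_err2 (6 * reach L) (B * L ^ (-2 : ℝ)) (b0 := 43 / 45) (b := 1)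
    (s := η) (by norm_num) (by norm_num) hη
  obtain ⟨H1, hH1⟩ := Filter.eventually_atTop.mp hev
  refine ⟨H1, ?_⟩
  intro x H hH
  have h1 := hB x H L hL
  have h2 := hH1 H hH
  rw [Real.rpow_one] at h2
  linarith

end Pool.Agent.H12.EW
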