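import Pool.Agent.H12.EW.LowI

/-!
Lower bounds for the number of `n` with `t(n) ≥ L * n` in all arithmetic progressions with
difference coprime to 6, uniformly in the difference.
-/

namespace Pool.Agent.H12.EW

open Filter Finset Pool.Agent.H12.EU Pool.Agent.H83.EX Pool.Agent.H12.EV

open Classical in
/-- The number of the `s < S` with `t(a + q s) ≥ L * (a + q s)`. -/
noncomputable def KQ (L : ℝ) (a q S : ℕ) : ℕ :=
  ((range S).filter (fun s : ℕ => ((L * ((a + q * s : ℕ) : ℝ) : ℝ) : EReal) ≤ t (a + q * s))).card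

lemma sum_modq (f : ℕ → ℝ) (a q : ℕ) (hq2 : q % 2 = 1) (hq3 : q % 3 ≠ 0) :
    ∑ j ∈ range 6, f ((a + q * j) % 6) = ∑ r ∈ range 6, f r := by
  have hq : q % 6 = 1 ∨ q % 6 = 5 := by omega
  have ha : a % 6 = 0 ∨ a % 6 = 1 ∨ a % 6 = 2 ∨ a % 6 = 3 ∨ a % 6 = 4 ∨ a % 6 = 5 := by omega
  have key : ∀ j : ℕ, (a + q * j) % 6 = (a % 6 + (q % 6) * j) % 6 := by
    intro j
    exact Nat.ModEq.add (Nat.mod_modEq a 6).symm ((Nat.mod_modEq q 6).symm.mul_right j)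
  simp only [key, Finset.sum_range_succ, Finset.sum_range_zero]
  rcases hq with h | h <;> rcases ha with h' | h' | h' | h' | h' | h' <;> rw [h, h'] <;>
    norm_num <;> ring

lemma KQ_low {θ : ℝ} {v : ℕ → ℝ} (hPar : Par θ v) : ∃ B : ℝ, 0 ≤ B ∧
    ∀ (a q S : ℕ) (L : ℝ), q % 2 = 1 → q % 3 ≠ 0 → 0 < L →
    ((S : ℝ) - 6) * reach L - B * (S : ℝ) ^ (43 / 45 : ℝ) * L ^ (-2 : ℝ) ≤ (KQ L a q S : ℝ) := by
  classical
  obtain ⟨B, hB0, hB⟩ := lowG hPar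
  refine ⟨6 * B, by positivity, ?_⟩
  intro a q S L hq2 hq3 hL
  have hl := Pool.Agent.H83.EX.card_split 6 S (by norm_num)
    (fun j s => BigR L 0 (a + q * j + 6 * q * s))
    (fun s : ℕ => ((L * ((a + q * s : ℕ) : ℝ) : ℝ) : EReal) ≤ t (a + q * s))
    (by
      intro j hj s h
      have e : a + q * (6 * s + j) = a + q * j + 6 * q * s := by ring
      have h2 := le_t_of_bigR h
      rw [← e] at h2
      exact h2)
  set T : ℕ := S / 6 with hT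
  have hsum : ∑ j ∈ range 6, ((T : ℝ) * F ((a + q * j) % 6) L 0 -
      B * (T : ℝ) ^ (43 / 45 : ℝ) * L ^ (-2 : ℝ)) ≤
      ∑ j ∈ range 6, (NL (a + q * j) q L 0 T : ℝ) :=
    Finset.sum_le_sum (fun j _ => hB T (a + q * j) q L 0 hq2 hq3 hL le_rfl)
  have hsum2 : ∑ j ∈ range 6, ((T : ℝ) * F ((a + q * j) % 6) L 0 -
      B * (T : ℝ) ^ (43 / 45 : ℝ) * L ^ (-2 : ℝ)) =
      T * (∑ r ∈ range 6, F r L 0) - 6 * (B * (T : ℝ) ^ (43 / 45 : ℝ) * L ^ (-2 : ℝ)) := by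
    rw [Finset.sum_sub_distrib, ← Finset.mul_sum, sum_modq (fun r => F r L 0) a q hq2 hq3]
    simp
  rw [hsum2] at hsum
  have hcast : ∑ j ∈ range 6, (NL (a + q * j) q L 0 T : ℝ) ≤ (KQ L a q S : ℝ) := by
    have h1 : ∑ j ∈ range 6, NL (a + q * j) q L 0 T ≤ KQ L a q S := by
      refine le_trans (le_of_eq ?_) (hl.trans (le_of_eq ?_))
      · refine Finset.sum_congr rfl ?_
        intro j _
        unfold NL
        congr
      · unfold KQ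
        congr
    exact_mod_cast h1
  have hre : ∑ r ∈ range 6, F r L 0 = 6 * reach L := by
    rw [reach_eq]
    unfold mod
    ring
  have hre0 : 0 ≤ reach L := by
    have h1 : 0 ≤ ∑ r ∈ range 6, F r L 0 := Finset.sum_nonneg (fun r _ => F_nonneg r L 0)
    linarith
  rw [hre] at hsum
  have hT2 : (S : ℝ) / 6 - 1 ≤ (T : ℝ) := by
    have h1 : S ≤ T * 6 + 5 := by omega
    have h2 : (S : ℝ) ≤ ((T * 6 + 5 : ℕ) : ℝ) := by exact_mod_cast h1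
    push_cast at h2
    linarith
  have hTH : (T : ℝ) ≤ S := by
    have h1 : T ≤ S := Nat.div_le_self _ _
    exact_mod_cast h1
  have hTp : (T : ℝ) ^ (43 / 45 : ℝ) ≤ (S : ℝ) ^ (43 / 45 : ℝ) :=
    Real.rpow_le_rpow (Nat.cast_nonneg _) hTH (by norm_num)
  have hLm : 0 < L ^ (-2 : ℝ) := Real.rpow_pos_of_pos hL _
  have h5 : B * (T : ℝ) ^ (43 / 45 : ℝ) * L ^ (-2 : ℝ) ≤
      B * (S : ℝ) ^ (43 / 45 : ℝ) * L ^ (-2 : ℝ) :=
    mul_le_mul_of_nonneg_right (mul_le_mul_of_nonneg_left hTp hB0) hLm.le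
  have h6 : ((S : ℝ) / 6 - 1) * (6 * reach L) ≤ T * (6 * reach L) :=
    mul_le_mul_of_nonneg_right hT2 (by linarith)
  linarith

/-- Large `L`, uniformly up to `S ^ 0.17`. -/
lemma KQ_asym {θ : ℝ} {v κ : ℕ → ℝ} (hPar : Par θ v) (hθ : θ < 52 / 23)
    (hc : ∀ r : ℕ, r < 6 → Tendsto (fun L : ℝ => F r L 0 * L ^ θ) atTop (nhds (κ r)))
    {η : ℝ} (hη : 0 < η) :
    ∃ (S₀ : ℕ) (L₀ : ℝ), ∀ a q S : ℕ, q % 2 = 1 → q % 3 ≠ 0 → S₀ ≤ S → ∀ L : ℝ, L₀ ≤ L →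
      L ≤ (S : ℝ) ^ (17 / 100 : ℝ) →
      (mean κ - η) * ((S : ℝ) * L ^ (-θ)) ≤ (KQ L a q S : ℝ) := by
  obtain ⟨B, hB0, hB⟩ := KQ_low hPar
  have hl := (reach_lim hc).eventually (lt_mem_nhds (show mean κ - η / 2 < mean κ by linarith))
  obtain ⟨L1, hL1⟩ := Filter.eventually_atTop.mp hl
  have hev := small_err2 (6 * mean κ) B (b0 := 43 / 45 + (52 / 23 - 2) * (17 / 100)) (b := 1)
    (s := η / 2) (by norm_num) (by norm_num) (by linarith)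
  obtain ⟨H1, hH1⟩ := Filter.eventually_atTop.mp hev
  refine ⟨max H1 6, max L1 1, ?_⟩
  intro a q H hq2 hq3 hH L hL hLH
  have hH1' : H1 ≤ H := (le_max_left _ _).trans hH
  have hH6 : 6 ≤ H := (le_max_right _ _).trans hH
  have hHr : (6 : ℝ) ≤ H := by exact_mod_cast hH6
  have hHpos : (0 : ℝ) < H := by linarith
  have hL1' : L1 ≤ L := (le_max_left _ _).trans hL
  have hL1r : 1 ≤ L := (le_max_right _ _).trans hL
  have hLpos : 0 < L := by linarith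
  have hLθ : 0 < L ^ (-θ) := Real.rpow_pos_of_pos hLpos _
  rcases le_or_gt (mean κ) η with hc1 | hc1
  · have h1 : (mean κ - η) * ((H : ℝ) * L ^ (-θ)) ≤ 0 := by
      have : 0 ≤ (H : ℝ) * L ^ (-θ) := by positivity
      nlinarith
    exact h1.trans (Nat.cast_nonneg _)
  have h1 := hB a q H L hq2 hq3 hLpos
  have h2 := (hL1 L hL1').le
  have h3 : (mean κ - η / 2) * L ^ (-θ) ≤ reach L := by
    have h4 := mul_le_mul_of_nonneg_right h2 hLθ.le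
    have e1 : reach L * L ^ θ * L ^ (-θ) = reach L := by
      rw [mul_assoc, ← Real.rpow_add hLpos]
      simp
    rw [e1] at h4
    exact h4
  have h4 : ((H : ℝ) - 6) * ((mean κ - η / 2) * L ^ (-θ)) ≤ ((H : ℝ) - 6) * reach L :=
    mul_le_mul_of_nonneg_left h3 (by linarith)
  have h5 : L ^ (-2 : ℝ) ≤ L ^ (-θ) * (H : ℝ) ^ ((52 / 23 - 2) * (17 / 100) : ℝ) := by
    have e1 : L ^ (-2 : ℝ) = L ^ (-θ) * L ^ (θ - 2) := by
      rw [← Real.rpow_add hLpos]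
      congr 1
      ring
    rw [e1]
    refine mul_le_mul_of_nonneg_left ?_ hLθ.le
    have h6 : L ^ (θ - 2) ≤ L ^ ((52 : ℝ) / 23 - 2) :=
      Real.rpow_le_rpow_of_exponent_le hL1r (by linarith)
    have h7 : L ^ ((52 : ℝ) / 23 - 2) ≤ ((H : ℝ) ^ (17 / 100 : ℝ)) ^ ((52 : ℝ) / 23 - 2) :=
      Real.rpow_le_rpow hLpos.le hLH (by norm_num)
    have e2 : ((H : ℝ) ^ (17 / 100 : ℝ)) ^ ((52 : ℝ) / 23 - 2) =
        (H : ℝ) ^ ((52 / 23 - 2) * (17 / 100) : ℝ) := by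
      rw [← Real.rpow_mul hHpos.le]
      congr 1
      ring
    rw [e2] at h7
    exact h6.trans h7
  have h8 := hH1 H hH1'
  rw [Real.rpow_one] at h8
  have e3 : (H : ℝ) ^ (43 / 45 + (52 / 23 - 2) * (17 / 100) : ℝ) =
      (H : ℝ) ^ (43 / 45 : ℝ) * (H : ℝ) ^ ((52 / 23 - 2) * (17 / 100) : ℝ) :=
    Real.rpow_add hHpos _ _
  rw [e3] at h8
  have h9 : B * (H : ℝ) ^ (43 / 45 : ℝ) * L ^ (-2 : ℝ) ≤
      B * (H : ℝ) ^ (43 / 45 : ℝ) * (L ^ (-θ) * (H : ℝ) ^ ((52 / 23 - 2) * (17 / 100) : ℝ)) :=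
    mul_le_mul_of_nonneg_left h5 (by positivity)
  have h10 := mul_le_mul_of_nonneg_right h8 hLθ.le
  have h11 : 0 ≤ η * L ^ (-θ) := by positivity
  nlinarith

/-- Fixed `L`. -/
lemma KQ_dens {θ : ℝ} {v : ℕ → ℝ} (hPar : Par θ v) {L : ℝ} (hL : 0 < L) {η : ℝ} (hη : 0 < η) :
    ∃ S₀ : ℕ, ∀ a q S : ℕ, q % 2 = 1 → q % 3 ≠ 0 → S₀ ≤ S →
      (reach L - η) * (S : ℝ) ≤ (KQ L a q S : ℝ) := by
  obtain ⟨B, hB0, hB⟩ := KQ_low hPar
  have hev := small_err2 (6 * reach L) (B * L ^ (-2 : ℝ)) (b0 := 43 / 45) (b := 1)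
    (s := η) (by norm_num) (by norm_num) hη
  obtain ⟨H1, hH1⟩ := Filter.eventually_atTop.mp hev
  refine ⟨H1, ?_⟩
  intro a q H hq2 hq3 hH
  have h1 := hB a q H L hq2 hq3 hL
  have h2 := hH1 H hH
  rw [Real.rpow_one] at h2
  linarith

end Pool.Agent.H12.EW
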