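import Pool.Agent.H12.EW.LowI

/-!
A power of `N` many `n ≤ N` with `t(n) > n ^ ρ` for every `ρ < log 25 / log 12`.
-/

namespace Pool.Agent.H12.EW

open Filter Finset Pool.Agent.H12.EU Pool.Agent.H83.EX Pool.Agent.H12.EV

lemma cyc5 {n m : ℕ} (h : 25 * n + 7 = 12 * m) (hm : m % 2 = 1) : C^[5] n = m := by
  obtain ⟨q, rfl⟩ : ∃ q, n = 12 * q + 5 := ⟨n / 12, by omega⟩
  have hm' : m = 25 * q + 11 := by omega
  subst hm'
  have h1 : C (12 * q + 5) = 60 * q + 26 := by
    unfold C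
    rw [if_neg (by omega), if_neg (by omega)]
    omega
  have h2 : C (60 * q + 26) = 30 * q + 13 := by
    unfold C
    rw [if_pos (by omega)]
    omega
  have h3 : C (30 * q + 13) = 150 * q + 66 := by
    unfold C
    rw [if_neg (by omega), if_neg (by omega)]
    omega
  have h4 : C (150 * q + 66) = 75 * q + 33 := by
    unfold C
    rw [if_pos (by omega)]
    omega
  have h5 : C (75 * q + 33) = 25 * q + 11 := by
    unfold C
    rw [if_neg (by omega), if_pos (by omega)]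
    omega
  simp only [Function.iterate_succ, Function.iterate_zero, Function.comp_apply, id_eq, h1, h2, h3,
    h4, h5]

lemma iter_cyc (k : ℕ) : ∀ w n m : ℕ, w % 2 = 0 → 13 * n + 7 = 12 ^ k * w →
    13 * m + 7 = 25 ^ k * w → C^[5 * k] n = m := by
  induction k with
  | zero =>
    intro w n m hw h1 h2
    rw [pow_zero, one_mul] at h1 h2
    have : n = m := by omega
    subst this
    rfl
  | succ k ih =>
    intro w n m hw h1 h2
    have e1 : 13 * n + 7 = 12 * (12 ^ k * w) := by rw [h1, pow_succ]; ring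
    obtain ⟨q, rfl⟩ : ∃ q, n = 12 * q + 5 := ⟨n / 12, by omega⟩
    have e2 : 12 ^ k * w = 13 * q + 6 := by omega
    have hodd : (25 * q + 11) % 2 = 1 := by
      have h3 : (12 ^ k * w) % 2 = 0 := by
        rw [Nat.mul_mod, hw]
        simp
      omega
    have h5 := cyc5 (n := 12 * q + 5) (m := 25 * q + 11) (by ring) hodd
    have e3 : 13 * (25 * q + 11) + 7 = 12 ^ k * (25 * w) := by
      have h4 : 12 ^ k * (25 * w) = 25 * (12 ^ k * w) := by ring
      rw [h4, e2]
      ring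
    have e4 : 13 * m + 7 = 25 ^ k * (25 * w) := by
      rw [h2, pow_succ]
      ring
    have h6 := ih (25 * w) (25 * q + 11) m (by omega) e3 e4
    rw [show 5 * (k + 1) = 5 * k + 5 by ring, Function.iterate_add_apply, h5, h6]

open Classical in
lemma base_count {θ : ℝ} {v : ℕ → ℝ} (hPar : Par θ v) : ∃ B : ℝ, 0 ≤ B ∧
    ∀ (j T : ℕ) (L : ℝ), 0 < L → (T : ℝ) * F 1 L 0 - B * (T : ℝ) ^ (43 / 45 : ℝ) * L ^ (-2 : ℝ) ≤
      (((Icc 1 (6 * 144 ^ j * T)).filter (fun n : ℕ =>
        ((L * (625 / 144 : ℝ) ^ j * (n : ℝ) : ℝ) : EReal) ≤ t n)).card : ℝ) := by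
  obtain ⟨B, hB0, hB⟩ := lowG hPar
  refine ⟨B, hB0, ?_⟩
  intro j T L hL
  have p13 : 144 ^ j % 13 = 1 := by
    rw [Nat.pow_mod]
    norm_num
  have q13 : 625 ^ j % 13 = 1 := by
    rw [Nat.pow_mod]
    norm_num
  have q3 : 625 ^ j % 3 = 1 := by
    rw [Nat.pow_mod]
    norm_num
  have q2 : 625 ^ j % 2 = 1 := by
    rw [Nat.pow_mod]
    norm_num
  have p1 : 1 ≤ 144 ^ j := Nat.one_le_pow _ _ (by norm_num)
  obtain ⟨n0, hn0⟩ : ∃ n0 : ℕ, 13 * n0 + 7 = 144 ^ j * 20 := ⟨(144 ^ j * 20 - 7) / 13, by omega⟩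
  obtain ⟨A, hA⟩ : ∃ A : ℕ, 13 * A + 7 = 625 ^ j * 20 := ⟨(625 ^ j * 20 - 7) / 13, by omega⟩
  have hA6 : A % 6 = 1 := by omega
  have h1 := hB T A (625 ^ j) L 0 q2 (by omega) hL le_rfl
  rw [hA6] at h1
  refine h1.trans ?_
  have h2 : NL A (625 ^ j) L 0 T ≤ ((Icc 1 (6 * 144 ^ j * T)).filter (fun n : ℕ =>
        ((L * (625 / 144 : ℝ) ^ j * (n : ℝ) : ℝ) : EReal) ≤ t n)).card := by
    unfold NL
    refine Finset.card_le_card_of_injOn (fun s => n0 + 6 * 144 ^ j * s) ?_ ?_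
    · intro s hs
      simp only [coe_filter, mem_range, Set.mem_ofPred_eq] at hs
      obtain ⟨hs1, i, hi, _⟩ := hs
      simp only [coe_filter, mem_Icc, Set.mem_ofPred_eq]
      set n : ℕ := n0 + 6 * 144 ^ j * s with hn
      set m : ℕ := A + 6 * 625 ^ j * s with hm
      have e1 : 13 * n + 7 = 12 ^ (2 * j) * (20 + 78 * s) := by
        rw [hn, pow_mul]
        have : (12 : ℕ) ^ 2 = 144 := by norm_num
        rw [this]
        calc 13 * (n0 + 6 * 144 ^ j * s) + 7 = (13 * n0 + 7) + 78 * 144 ^ j * s := by ring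
          _ = 144 ^ j * (20 + 78 * s) := by rw [hn0]; ring
      have e2 : 13 * m + 7 = 25 ^ (2 * j) * (20 + 78 * s) := by
        rw [hm, pow_mul]
        have : (25 : ℕ) ^ 2 = 625 := by norm_num
        rw [this]
        calc 13 * (A + 6 * 625 ^ j * s) + 7 = (13 * A + 7) + 78 * 625 ^ j * s := by ring
          _ = 625 ^ j * (20 + 78 * s) := by rw [hA]; ring
      have e3 := iter_cyc (2 * j) (20 + 78 * s) n m (by omega) e1 e2
      have hT : 6 * 144 ^ j * (s + 1) ≤ 6 * 144 ^ j * T := Nat.mul_le_mul_left _ hs1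
      have hT' : 6 * 144 ^ j * (s + 1) = 6 * 144 ^ j * s + 6 * 144 ^ j := by ring
      refine ⟨⟨by omega, by omega⟩, ?_⟩
      have h3 : (((C^[i + 5 * (2 * j)] n : ℕ) : ℝ) : EReal) ≤ t n :=
        le_iSup (fun i => (((C^[i] n : ℕ) : ℝ) : EReal)) (i + 5 * (2 * j))
      refine le_trans ?_ h3
      rw [Function.iterate_add_apply, e3]
      have e1r : 13 * (n : ℝ) + 7 = (144 : ℝ) ^ j * (20 + 78 * s) := by
        have : (12 : ℕ) ^ (2 * j) = 144 ^ j := by rw [pow_mul]; norm_num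
        rw [this] at e1
        exact_mod_cast e1
      have e2r : 13 * (m : ℝ) + 7 = (625 : ℝ) ^ j * (20 + 78 * s) := by
        have : (25 : ℕ) ^ (2 * j) = 625 ^ j := by rw [pow_mul]; norm_num
        rw [this] at e2
        exact_mod_cast e2
      have h4 : (625 / 144 : ℝ) ^ j * n ≤ m := by
        have hp : (0 : ℝ) < (144 : ℝ) ^ j := by positivity
        have hq : (144 : ℝ) ^ j ≤ (625 : ℝ) ^ j := pow_le_pow_left₀ (by norm_num) (by norm_num) j
        rw [div_pow, div_mul_eq_mul_div, div_le_iff₀ hp]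
        have h5 : (144 : ℝ) ^ j * (13 * m + 7) = (625 : ℝ) ^ j * (13 * n + 7) := by
          rw [e1r, e2r]
          ring
        linarith
      have h5 : L * (625 / 144 : ℝ) ^ j * (n : ℝ) ≤ (C^[i] m : ℝ) := by
        refine le_trans ?_ hi
        rw [mul_assoc]
        exact mul_le_mul_of_nonneg_left h4 hL.le
      exact_mod_cast h5
    · intro a _ b _ hab
      have hab' : n0 + 6 * 144 ^ j * a = n0 + 6 * 144 ^ j * b := hab
      have h3 : 6 * 144 ^ j * a = 6 * 144 ^ j * b := by omega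
      exact Nat.eq_of_mul_eq_mul_left (by omega) h3
  exact_mod_cast h2

end Pool.Agent.H12.EW
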