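import Pool.Agent.H12.EW.Power

/-!
The main estimate: at least `c * N ^ b` of the `n ≤ N` satisfy `t(n) > n ^ ρ`.
-/

namespace Pool.Agent.H12.EW

open Filter Finset Pool.Agent.H12.EU Pool.Agent.H83.EX Pool.Agent.H12.EV

/-- `log 25 / log 12 - 1`, the exponent of the growth along the cycle 5, 2, 1, 0, 3, 5. -/
noncomputable def tau : ℝ := Real.log 25 / Real.log 12 - 1

lemma tau_pow : (144 : ℝ) ^ tau = 625 / 144 := by
  have h12 : 0 < Real.log 12 := Real.log_pos (by norm_num)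
  have h144 : Real.log 144 = 2 * Real.log 12 := by
    rw [show (144 : ℝ) = 12 ^ 2 by norm_num, Real.log_pow]; norm_num
  have h625 : Real.log 625 = 2 * Real.log 25 := by
    rw [show (625 : ℝ) = 25 ^ 2 by norm_num, Real.log_pow]; norm_num
  rw [Real.rpow_def_of_pos (by norm_num)]
  have e : Real.log 144 * tau = Real.log (625 / 144) := by
    rw [Real.log_div (by norm_num) (by norm_num), h144, h625]
    unfold tau
    field_simp
  rw [e, Real.exp_log (by norm_num)]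

lemma tau_gt : 17 / 100 < tau := by
  by_contra hcon
  rw [not_lt] at hcon
  have h1 : (144 : ℝ) ^ tau ≤ (144 : ℝ) ^ (17 / 100 : ℝ) :=
    Real.rpow_le_rpow_of_exponent_le (by norm_num) hcon
  rw [tau_pow] at h1
  have h2 : (144 : ℝ) ^ (17 / 100 : ℝ) < 5 / 2 := by
    have h3 : ((144 : ℝ) ^ (17 / 100 : ℝ)) ^ (100 : ℕ) = (144 : ℝ) ^ (17 : ℕ) := by
      rw [← Real.rpow_natCast, ← Real.rpow_mul (by norm_num), ← Real.rpow_natCast]
      congr 1
      norm_num
    have h4 : ((144 : ℝ) ^ (17 / 100 : ℝ)) ^ (100 : ℕ) < (5 / 2 : ℝ) ^ (100 : ℕ) := by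
      rw [h3]
      norm_num
    exact lt_of_pow_lt_pow_left₀ 100 (by norm_num) h4
  linarith

lemma real_small (D : ℝ) {a b s : ℝ} (hab : a < b) (hs : 0 < s) :
    ∃ Y : ℝ, 1 ≤ Y ∧ ∀ y : ℝ, Y ≤ y → D * y ^ a ≤ s * y ^ b := by
  have t2 : Tendsto (fun y : ℝ => D * y ^ (-(b - a))) atTop (nhds (D * 0)) :=
    (tendsto_rpow_neg_atTop (by linarith)).const_mul D
  rw [mul_zero] at t2
  obtain ⟨Y, hY⟩ := Filter.eventually_atTop.mp (t2.eventually (gt_mem_nhds hs))
  refine ⟨max Y 1, le_max_right _ _, ?_⟩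
  intro y hy
  have hy1 : 1 ≤ y := (le_max_right _ _).trans hy
  have hy0 : 0 < y := by linarith
  have h1 := (hY y ((le_max_left _ _).trans hy)).le
  have hp : 0 < y ^ b := Real.rpow_pos_of_pos hy0 _
  have h2 := mul_le_mul_of_nonneg_right h1 hp.le
  have e : D * y ^ (-(b - a)) * y ^ b = D * y ^ a := by
    rw [mul_assoc, ← Real.rpow_add hy0]
    congr 2
    ring
  rw [e] at h2
  exact h2

open Classical in
lemma power_low {θ κ1 : ℝ} {v : ℕ → ℝ} (hPar : Par θ v) (hθ : θ < 52 / 23) (hκ : 0 < κ1)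
    (hc : Tendsto (fun L : ℝ => F 1 L 0 * L ^ θ) atTop (nhds κ1))
    {ρ : ℝ} (hρ1 : 117 / 100 ≤ ρ) (hρ2 : ρ < 1 + tau) :
    ∃ c : ℝ, 0 < c ∧ ∀ N : ℕ, 1 ≤ N →
      c * (N : ℝ) ^ ((1 - 17 / 100 * θ) * ((1 + tau - ρ) / (1 + tau - 117 / 100))) ≤
        (((Icc 1 N).filter (fun n : ℕ => (((n : ℝ) ^ ρ : ℝ) : EReal) < t n)).card : ℝ) := by
  have hτ := tau_gt
  have hθ2 := hPar.hθ1
  set τ : ℝ := tau with hτdef
  set δ : ℝ := (1 + τ - ρ) / (1 + τ - 117 / 100) with hδ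
  have hden : 0 < 1 + τ - 117 / 100 := by linarith
  have hδ0 : 0 < δ := div_pos (by linarith) hden
  have hδ1 : δ ≤ 1 := by
    rw [hδ, div_le_one hden]
    linarith
  have hδe : δ * (1 + τ - 117 / 100) = 1 + τ - ρ := by
    rw [hδ, div_mul_cancel₀ _ hden.ne']
  have hρe : ρ - 1 = 17 / 100 * δ + τ * (1 - δ) := by linarith
  set e2 : ℝ := 1 - 17 / 100 * θ with he2
  have he20 : 0 < e2 := by rw [he2]; linarith
  obtain ⟨B, hB0, hB⟩ := base_count hPar
  -- the lower bound for the model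
  obtain ⟨L0, hL0⟩ := Filter.eventually_atTop.mp
    (hc.eventually (lt_mem_nhds (show κ1 / 2 < κ1 by linarith)))
  set c3 : ℝ := κ1 / 2 * (9 : ℝ) ^ (-θ) / 12 with hc3
  have hc30 : 0 < c3 := by positivity
  obtain ⟨Y1, hY11, hY1⟩ := real_small (24 * B) (a := 43 / 45 - 34 / 100) (b := e2) (s := c3 / 2)
    (by rw [he2]; linarith) (by linarith)
  obtain ⟨Y2, hY2⟩ := Filter.eventually_atTop.mp
    ((tendsto_rpow_atTop (show (0 : ℝ) < 17 / 100 by norm_num)).eventually_ge_atTop L0)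
  set Y : ℝ := max (max Y1 Y2) 12 with hY
  have hY0 : 0 < Y := by
    have : (12 : ℝ) ≤ Y := le_max_right _ _
    linarith
  have hYp : 0 < Y ^ e2 := Real.rpow_pos_of_pos hY0 _
  refine ⟨min (c3 / 2) (1 / Y ^ e2), lt_min (by linarith) (by positivity), ?_⟩
  intro N hN
  have hN1 : (1 : ℝ) ≤ N := by exact_mod_cast hN
  have hN0 : (0 : ℝ) < N := by linarith
  set y : ℝ := (N : ℝ) ^ δ with hy
  have hy0 : 0 < y := Real.rpow_pos_of_pos hN0 _
  have eNy : (N : ℝ) ^ (e2 * δ) = y ^ e2 := by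
    rw [hy, ← Real.rpow_mul hN0.le]
    congr 1
    ring
  rw [eNy]
  have hyp : 0 < y ^ e2 := Real.rpow_pos_of_pos hy0 _
  rcases lt_or_ge y Y with hlt | hge
  · -- small `N`
    have h3 : min (c3 / 2) (1 / Y ^ e2) * y ^ e2 ≤ 1 := by
      calc min (c3 / 2) (1 / Y ^ e2) * y ^ e2 ≤ (1 / Y ^ e2) * Y ^ e2 :=
            mul_le_mul (min_le_right _ _) (Real.rpow_le_rpow hy0.le hlt.le he20.le) hyp.le
              (by positivity)
        _ = 1 := by field_simp
    have h4 : 1 ≤ ((Icc 1 N).filter (fun n : ℕ => (((n : ℝ) ^ ρ : ℝ) : EReal) < t n)).card := by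
      rw [Nat.one_le_iff_ne_zero, ← Nat.pos_iff_ne_zero, Finset.card_pos]
      refine ⟨1, ?_⟩
      rw [mem_filter, mem_Icc]
      exact ⟨⟨le_refl _, hN⟩, one_lt_t_one⟩
    have h5 : (1 : ℝ) ≤ (((Icc 1 N).filter
        (fun n : ℕ => (((n : ℝ) ^ ρ : ℝ) : EReal) < t n)).card : ℝ) := by exact_mod_cast h4
    linarith
  · -- large `N`
    have hyY1 : Y1 ≤ y := ((le_max_left _ _).trans (le_max_left _ _)).trans hge
    have hyY2 : Y2 ≤ y := ((le_max_right _ _).trans (le_max_left _ _)).trans hge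
    have hy12 : 12 ≤ y := (le_max_right _ _).trans hge
    set x : ℝ := (N : ℝ) ^ (1 - δ) with hx
    have hx1 : 1 ≤ x := Real.one_le_rpow hN1 (by linarith)
    have hx0 : 0 < x := by linarith
    have hxy : x * y = N := by
      rw [hx, hy, ← Real.rpow_add hN0]
      simp
    obtain ⟨j, hj1, hj2⟩ := exists_nat_pow_near hx1 (show (1 : ℝ) < 144 by norm_num)
    set G : ℝ := (144 : ℝ) ^ j with hG
    have hG0 : 0 < G := by positivity
    have hG1 : 1 ≤ G := one_le_pow₀ (by norm_num)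
    rw [pow_succ] at hj2
    -- the parameter
    set z : ℝ := (x / G) ^ τ with hz
    have hxG1 : 1 ≤ x / G := by
      rw [le_div_iff₀ hG0]
      linarith
    have hxG2 : x / G ≤ 144 := by
      rw [div_le_iff₀ hG0]
      linarith
    have hz1 : 1 ≤ z := Real.one_le_rpow hxG1 (by linarith)
    have hz2 : z ≤ 9 / 2 := by
      have h1 : z ≤ (144 : ℝ) ^ τ := Real.rpow_le_rpow (by linarith) hxG2 (by linarith)
      rw [hτdef, tau_pow] at h1
      linarith
    set y1 : ℝ := y ^ (17 / 100 : ℝ) with hy1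
    have hy10 : 0 < y1 := Real.rpow_pos_of_pos hy0 _
    set L : ℝ := 2 * y1 * z with hL
    have hLlow : 2 * y1 ≤ L := by
      rw [hL]
      nlinarith
    have hLup : L ≤ 9 * y1 := by
      rw [hL]
      nlinarith
    have hLpos : 0 < L := by linarith
    set T : ℕ := ⌊(N : ℝ) / (6 * G)⌋₊ with hT
    have hNG0 : 0 ≤ (N : ℝ) / (6 * G) := by positivity
    have hT1 : (T : ℝ) ≤ N / (6 * G) := Nat.floor_le hNG0
    have hT2 : (N : ℝ) / (6 * G) < T + 1 := Nat.lt_floor_add_one _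
    have hNG : (N : ℝ) / (6 * G) = y * (x / G) / 6 := by
      rw [← hxy]
      field_simp
    have hTlow : y / 12 ≤ (T : ℝ) := by
      have h1 : y ≤ y * (x / G) := by nlinarith
      rw [hNG] at hT2
      linarith
    have hTup : (T : ℝ) ≤ 24 * y := by
      have h1 : y * (x / G) ≤ y * 144 := mul_le_mul_of_nonneg_left hxG2 hy0.le
      rw [hNG] at hT1
      linarith
    have hTN : 6 * 144 ^ j * T ≤ N := by
      have h1 : (T : ℝ) * (6 * G) ≤ N := by
        rw [le_div_iff₀ (by positivity)] at hT1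
        exact hT1
      have h2 : ((6 * 144 ^ j * T : ℕ) : ℝ) ≤ (N : ℝ) := by
        push_cast
        rw [← hG]
        linarith
      exact_mod_cast h2
    have hmain := hB j T L hLpos
    -- comparison of the counts
    have hcnt : ((Icc 1 (6 * 144 ^ j * T)).filter (fun n : ℕ =>
        ((L * (625 / 144 : ℝ) ^ j * (n : ℝ) : ℝ) : EReal) ≤ t n)).card ≤
        ((Icc 1 N).filter (fun n : ℕ => (((n : ℝ) ^ ρ : ℝ) : EReal) < t n)).card := by
      refine Finset.card_le_card ?_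
      intro n hn
      rw [mem_filter, mem_Icc] at hn ⊢
      obtain ⟨⟨hn1, hn2⟩, hn3⟩ := hn
      refine ⟨⟨hn1, hn2.trans hTN⟩, lt_of_lt_of_le ?_ hn3⟩
      have hn1r : (1 : ℝ) ≤ n := by exact_mod_cast hn1
      have hn0r : (0 : ℝ) < n := by linarith
      have hnN : (n : ℝ) ≤ N := by exact_mod_cast hn2.trans hTN
      have e1 : (n : ℝ) ^ ρ = (n : ℝ) ^ (ρ - 1) * n := by
        rw [← Real.rpow_add_one hn0r.ne']
        congr 1
        ring
      have e3 : (n : ℝ) ^ (ρ - 1) ≤ (N : ℝ) ^ (ρ - 1) :=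
        Real.rpow_le_rpow hn0r.le hnN (by linarith)
      have e4 : L * (625 / 144 : ℝ) ^ j = 2 * (N : ℝ) ^ (ρ - 1) := by
        have f1 : (625 / 144 : ℝ) ^ j = G ^ τ := by
          rw [← tau_pow, hG, ← Real.rpow_natCast, ← Real.rpow_natCast, ← Real.rpow_mul (by norm_num),
            ← Real.rpow_mul (by norm_num)]
          congr 1
          ring
        have f2 : z * G ^ τ = x ^ τ := by
          rw [hz, ← Real.mul_rpow (by positivity) hG0.le]
          congr 1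
          field_simp
        have f3 : y1 * x ^ τ = (N : ℝ) ^ (ρ - 1) := by
          rw [hy1, hy, hx, ← Real.rpow_mul hN0.le, ← Real.rpow_mul hN0.le, ← Real.rpow_add hN0,
            hρe]
          congr 1
          ring
        rw [f1, hL, mul_assoc, f2, mul_assoc, f3]
      have e5 : 0 < (N : ℝ) ^ (ρ - 1) := Real.rpow_pos_of_pos hN0 _
      have e6 : (n : ℝ) ^ ρ < L * (625 / 144 : ℝ) ^ j * (n : ℝ) := by
        rw [e1, e4]
        nlinarith
      exact_mod_cast e6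
    have hcntr : (((Icc 1 (6 * 144 ^ j * T)).filter (fun n : ℕ =>
        ((L * (625 / 144 : ℝ) ^ j * (n : ℝ) : ℝ) : EReal) ≤ t n)).card : ℝ) ≤
        (((Icc 1 N).filter (fun n : ℕ => (((n : ℝ) ^ ρ : ℝ) : EReal) < t n)).card : ℝ) := by
      exact_mod_cast hcnt
    refine le_trans ?_ (hmain.trans hcntr)
    -- the main term
    have hLge : L0 ≤ L := by
      have h1 := hY2 y hyY2
      linarith
    have hF := (hL0 L hLge).le
    have hLθ : 0 < L ^ (-θ) := Real.rpow_pos_of_pos hLpos _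
    have hF2 : κ1 / 2 * L ^ (-θ) ≤ F 1 L 0 := by
      have h4 := mul_le_mul_of_nonneg_right hF hLθ.le
      have e1 : F 1 L 0 * L ^ θ * L ^ (-θ) = F 1 L 0 := by
        rw [mul_assoc, ← Real.rpow_add hLpos]
        simp
      rw [e1] at h4
      exact h4
    have hL9 : (9 : ℝ) ^ (-θ) * y ^ (-(17 / 100 * θ)) ≤ L ^ (-θ) := by
      have h1 : (9 * y1) ^ (-θ) ≤ L ^ (-θ) :=
        Real.rpow_le_rpow_of_nonpos hLpos hLup (by linarith)
      have h2 : (9 * y1) ^ (-θ) = (9 : ℝ) ^ (-θ) * y ^ (-(17 / 100 * θ)) := by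
        rw [Real.mul_rpow (by norm_num) hy10.le, hy1, ← Real.rpow_mul hy0.le]
        congr 2
        ring
      rw [h2] at h1
      exact h1
    have hy17 : 0 < y ^ (-(17 / 100 * θ)) := Real.rpow_pos_of_pos hy0 _
    have g1 : c3 * y ^ e2 ≤ (T : ℝ) * F 1 L 0 := by
      have h1 : c3 * y ^ e2 = y / 12 * (κ1 / 2 * ((9 : ℝ) ^ (-θ) * y ^ (-(17 / 100 * θ)))) := by
        have h2 : y ^ e2 = y * y ^ (-(17 / 100 * θ)) := by
          rw [he2, sub_eq_add_neg, Real.rpow_add hy0, Real.rpow_one]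
        rw [h2, hc3]
        ring
      rw [h1]
      refine mul_le_mul hTlow (le_trans ?_ hF2) (by positivity) (Nat.cast_nonneg _)
      exact mul_le_mul_of_nonneg_left hL9 (by linarith)
    have g2 : B * (T : ℝ) ^ (43 / 45 : ℝ) * L ^ (-2 : ℝ) ≤
        24 * B * y ^ (43 / 45 - 34 / 100 : ℝ) := by
      have h1 : (T : ℝ) ^ (43 / 45 : ℝ) ≤ 24 * y ^ (43 / 45 : ℝ) := by
        have h2 : (T : ℝ) ^ (43 / 45 : ℝ) ≤ (24 * y) ^ (43 / 45 : ℝ) :=
          Real.rpow_le_rpow (Nat.cast_nonneg _) hTup (by norm_num)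
        rw [Real.mul_rpow (by norm_num) hy0.le] at h2
        have h3 : (24 : ℝ) ^ (43 / 45 : ℝ) ≤ 24 := by
          have h4 : (24 : ℝ) ^ (43 / 45 : ℝ) ≤ (24 : ℝ) ^ (1 : ℝ) :=
            Real.rpow_le_rpow_of_exponent_le (by norm_num) (by norm_num)
          rw [Real.rpow_one] at h4
          exact h4
        have h5 : 0 ≤ y ^ (43 / 45 : ℝ) := Real.rpow_nonneg hy0.le _
        have h6 := mul_le_mul_of_nonneg_right h3 h5
        linarith
      have h2 : L ^ (-2 : ℝ) ≤ y ^ (-(34 / 100) : ℝ) := by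
        have h3 : L ^ (-2 : ℝ) ≤ y1 ^ (-2 : ℝ) :=
          Real.rpow_le_rpow_of_nonpos hy10 (by linarith) (by norm_num)
        have h4 : y1 ^ (-2 : ℝ) = y ^ (-(34 / 100) : ℝ) := by
          rw [hy1, ← Real.rpow_mul hy0.le]
          congr 1
          norm_num
        rw [h4] at h3
        exact h3
      have h3 : y ^ (43 / 45 - 34 / 100 : ℝ) = y ^ (43 / 45 : ℝ) * y ^ (-(34 / 100) : ℝ) := by
        rw [← Real.rpow_add hy0]
        congr 1
      rw [h3]
      have h5 : B * (T : ℝ) ^ (43 / 45 : ℝ) ≤ B * (24 * y ^ (43 / 45 : ℝ)) :=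
        mul_le_mul_of_nonneg_left h1 hB0
      have h6 : 0 ≤ L ^ (-2 : ℝ) := Real.rpow_nonneg hLpos.le _
      have h7 : 0 ≤ B * (24 * y ^ (43 / 45 : ℝ)) := by positivity
      calc B * (T : ℝ) ^ (43 / 45 : ℝ) * L ^ (-2 : ℝ)
          ≤ B * (24 * y ^ (43 / 45 : ℝ)) * y ^ (-(34 / 100) : ℝ) := mul_le_mul h5 h2 h6 h7
        _ = 24 * B * (y ^ (43 / 45 : ℝ) * y ^ (-(34 / 100) : ℝ)) := by ring
    have g3 := hY1 y hyY1
    have g4 : min (c3 / 2) (1 / Y ^ e2) * y ^ e2 ≤ c3 / 2 * y ^ e2 :=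
      mul_le_mul_of_nonneg_right (min_le_left _ _) hyp.le
    linarith

end Pool.Agent.H12.EW
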